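import Pool.Agent.H450.GG.Trans
import Pool.Agent.H450.GG.Cont

set_option autoImplicit false
set_option linter.unusedSectionVars false

namespace Pool.Agent.H450.GW

open Polynomial Module NumberField Pool.Agent.H450.GG
open scoped nonZeroDivisors

/-- Algebraic integers `r x` (the points) which are permuted by the automorphisms, and a family of sets of
points which is permuted transitively. -/
structure Geo (A : Type) [Field A] [CharZero A] (V Ω : Type) where
  r : V → A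
  inj : Function.Injective r
  int : ∀ x, IsIntegral ℤ (r x)
  perm : ∀ (σ : A ≃ₐ[ℚ] A) (x : V), ∃ y, σ (r x) = r y
  pts : Ω → Finset V
  pts_inj : Function.Injective pts
  act : ∀ (σ : A ≃ₐ[ℚ] A) (w : Ω), ∃ w', ∀ x y, σ (r x) = r y → (x ∈ pts w ↔ y ∈ pts w')
  tr : ∀ w w' : Ω, ∃ σ : A ≃ₐ[ℚ] A, ∀ x y, σ (r x) = r y → (x ∈ pts w ↔ y ∈ pts w')
  w0 : Ω

namespace Geo

variable {A : Type} [Field A] [CharZero A] [Algebra.IsAlgebraic ℚ A] [IsAlgClosed A]
variable {V Ω : Type} [Fintype V] [DecidableEq V] [Fintype Ω] [DecidableEq Ω] (g : Geo A V Ω)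

/-- the action on the points -/
noncomputable def pm (σ : A ≃ₐ[ℚ] A) (x : V) : V := (g.perm σ x).choose

theorem pm_spec (σ : A ≃ₐ[ℚ] A) (x : V) : σ (g.r x) = g.r (g.pm σ x) := (g.perm σ x).choose_spec

theorem pm_eq {σ : A ≃ₐ[ℚ] A} {x y : V} (h : σ (g.r x) = g.r y) : g.pm σ x = y :=
  g.inj (by rw [← g.pm_spec, h])

theorem pm_inj (σ : A ≃ₐ[ℚ] A) : Function.Injective (g.pm σ) := by
  intro x y h
  have h1 := g.pm_spec σ x
  rw [h, ← g.pm_spec σ y] at h1
  exact g.inj (σ.injective h1)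

theorem pm_bij (σ : A ≃ₐ[ℚ] A) : Function.Bijective (g.pm σ) :=
  ⟨g.pm_inj σ, Finite.surjective_of_injective (g.pm_inj σ)⟩

/-- the action on the blocks -/
noncomputable def am (σ : A ≃ₐ[ℚ] A) (w : Ω) : Ω := (g.act σ w).choose

theorem mem_am (σ : A ≃ₐ[ℚ] A) (w : Ω) (x : V) : g.pm σ x ∈ g.pts (g.am σ w) ↔ x ∈ g.pts w :=
  ((g.act σ w).choose_spec x (g.pm σ x) (g.pm_spec σ x)).symm

theorem am_eq {σ : A ≃ₐ[ℚ] A} {w w' : Ω} (h : ∀ x, g.pm σ x ∈ g.pts w' ↔ x ∈ g.pts w) : g.am σ w = w' := by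
  apply g.pts_inj
  ext y
  obtain ⟨x, rfl⟩ := (g.pm_bij σ).2 y
  rw [g.mem_am, h]

theorem pts_am (σ : A ≃ₐ[ℚ] A) (w : Ω) : g.pts (g.am σ w) = (g.pts w).image (g.pm σ) := by
  ext y
  obtain ⟨x, rfl⟩ := (g.pm_bij σ).2 y
  rw [g.mem_am, Finset.mem_image]
  constructor
  · intro h; exact ⟨x, h, rfl⟩
  · rintro ⟨x', h, h'⟩
    rwa [← g.pm_inj σ h']

theorem pm_trans (σ τ : A ≃ₐ[ℚ] A) (x : V) : g.pm (σ.trans τ) x = g.pm τ (g.pm σ x) := by
  apply g.pm_eq
  rw [AlgEquiv.trans_apply, g.pm_spec, g.pm_spec]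

theorem am_trans (σ τ : A ≃ₐ[ℚ] A) (w : Ω) : g.am (σ.trans τ) w = g.am τ (g.am σ w) := by
  apply g.am_eq
  intro x
  rw [g.pm_trans, g.mem_am, g.mem_am]

theorem am_inj (σ : A ≃ₐ[ℚ] A) : Function.Injective (g.am σ) := by
  intro w w' h
  apply g.pts_inj
  ext x
  rw [← g.mem_am σ, h, g.mem_am]

theorem am_bij (σ : A ≃ₐ[ℚ] A) : Function.Bijective (g.am σ) :=
  ⟨g.am_inj σ, Finite.surjective_of_injective (g.am_inj σ)⟩

theorem tr' (w w' : Ω) : ∃ σ : A ≃ₐ[ℚ] A, g.am σ w = w' := by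
  obtain ⟨σ, h⟩ := g.tr w w'
  exact ⟨σ, g.am_eq fun x => (h x _ (g.pm_spec σ x)).symm⟩

/-- an automorphism moving the base block to a given one -/
noncomputable def s (w : Ω) : A ≃ₐ[ℚ] A := (g.tr' g.w0 w).choose

theorem s_spec (w : Ω) : g.am (g.s w) g.w0 = w := (g.tr' g.w0 w).choose_spec

/-- the polynomial of a block -/
noncomputable def ph (w : Ω) : A[X] := ∏ x ∈ g.pts w, (X - C (g.r x))

theorem ph_map (σ : A ≃ₐ[ℚ] A) (w : Ω) : (g.ph w).map (σ : A →+* A) = g.ph (g.am σ w) := by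
  unfold ph
  rw [Polynomial.map_prod, g.pts_am, Finset.prod_image (fun x _ y _ h => g.pm_inj σ h)]
  refine Finset.prod_congr rfl fun x _ => ?_
  rw [Polynomial.map_sub, Polynomial.map_X, Polynomial.map_C]
  congr 2
  exact g.pm_spec σ x

theorem ph_natDegree (w : Ω) : (g.ph w).natDegree = (g.pts w).card := by
  unfold ph
  rw [natDegree_prod_of_monic _ _ fun j _ => monic_X_sub_C _, Finset.sum_congr rfl fun j _ => natDegree_X_sub_C _]
  simp

theorem ph_inj {w w' : Ω} (h : g.ph w = g.ph w') : w = w' := by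
  apply g.pts_inj
  ext x
  have h1 : ∀ w, (g.ph w).eval (g.r x) = 0 ↔ x ∈ g.pts w := by
    intro w
    unfold ph
    rw [Polynomial.eval_prod, Finset.prod_eq_zero_iff]
    constructor
    · rintro ⟨y, hy, h2⟩
      rw [eval_sub, eval_X, eval_C, sub_eq_zero] at h2
      rwa [g.inj h2]
    · intro hx
      exact ⟨x, hx, by simp⟩
  rw [← h1, ← h1, h]

/-- the field of the base block -/
noncomputable def K : IntermediateField ℚ A :=
  IntermediateField.adjoin ℚ ((fun k => (g.ph g.w0).coeff k) '' (Finset.range (g.ph g.w0).natDegree.succ : Set ℕ))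

theorem coeff_mem (k : ℕ) : (g.ph g.w0).coeff k ∈ g.K := by
  by_cases hk : k ≤ (g.ph g.w0).natDegree
  · apply IntermediateField.subset_adjoin
    exact ⟨k, by rw [Finset.mem_coe, Finset.mem_range]; omega, rfl⟩
  · rw [coeff_eq_zero_of_natDegree_lt (not_le.1 hk)]
    exact zero_mem _

instance fd : FiniteDimensional ℚ g.K :=
  IntermediateField.finiteDimensional_adjoin (fun x _ => Algebra.IsIntegral.isIntegral x)

instance nf : NumberField g.K where
  to_charZero := inferInstance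
  to_finiteDimensional := g.fd

theorem fix_iff (σ : A ≃ₐ[ℚ] A) : (∀ z ∈ g.K, σ z = z) ↔ g.am σ g.w0 = g.w0 := by
  constructor
  · intro h
    apply g.ph_inj
    rw [← g.ph_map]
    ext k
    rw [coeff_map]
    exact h _ (g.coeff_mem k)
  · intro h z hz
    have h1 : ∀ k, σ ((g.ph g.w0).coeff k) = (g.ph g.w0).coeff k := by
      intro k
      have h2 := congrArg (fun f => f.coeff k) (g.ph_map σ g.w0)
      simp only [coeff_map] at h2
      rw [h] at h2
      exact h2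
    unfold K at hz
    induction hz using IntermediateField.adjoin_induction with
    | mem a ha =>
      obtain ⟨k, -, rfl⟩ := ha
      exact h1 k
    | algebraMap q => rw [AlgEquiv.commutes]
    | add a b _ _ ha hb => rw [map_add, ha, hb]
    | inv a _ ha => rw [map_inv₀, ha]
    | mul a b _ _ ha hb => rw [map_mul, ha, hb]

/-- The value of an automorphism on `K` depends only on the image of the base block. -/
theorem eq_on {σ τ : A ≃ₐ[ℚ] A} (h : g.am σ g.w0 = g.am τ g.w0) {α : A} (hα : α ∈ g.K) : σ α = τ α := by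
  have h1 : g.am (σ.trans τ.symm) g.w0 = g.w0 := by
    apply g.am_inj τ
    rw [← g.am_trans, ← h]
    congr 1
    ext z
    simp
  have h2 := (g.fix_iff _).2 h1 α hα
  rw [AlgEquiv.trans_apply, AlgEquiv.symm_apply_eq] at h2
  exact h2

theorem eq_s (σ : A ≃ₐ[ℚ] A) {α : A} (hα : α ∈ g.K) : σ α = g.s (g.am σ g.w0) α :=
  g.eq_on (by rw [g.s_spec]) hα

theorem act_s (τ : A ≃ₐ[ℚ] A) (w : Ω) {α : A} (hα : α ∈ g.K) : τ (g.s w α) = g.s (g.am τ w) α := by
  have h := g.eq_s ((g.s w).trans τ) hα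
  rw [AlgEquiv.trans_apply, g.am_trans, g.s_spec] at h
  exact h

theorem s_w0 {α : A} (hα : α ∈ g.K) : g.s g.w0 α = α := by
  rw [(g.fix_iff _).2 (g.s_spec g.w0) α hα]

theorem s_ne_zero {α : A} (hα : α ≠ 0) (w : Ω) : g.s w α ≠ 0 := (_root_.map_ne_zero _).2 hα

/-- an element fixed by the stabilizer of the base block -/
theorem mem_K {x : A} (h : ∀ σ : A ≃ₐ[ℚ] A, g.am σ g.w0 = g.w0 → σ x = x) : x ∈ g.K :=
  mem_of_fixed _ _ fun σ hσ => h σ ((g.fix_iff σ).1 hσ)

/-- an equivariant function on the blocks -/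
theorem equi {E : Ω → A} (hE : ∀ (σ : A ≃ₐ[ℚ] A) w, σ (E w) = E (g.am σ w)) :
    E g.w0 ∈ g.K ∧ ∀ w, g.s w (E g.w0) = E w := by
  constructor
  · apply g.mem_K
    intro σ hσ
    rw [hE, hσ]
  · intro w
    rw [hE, g.s_spec]

/-- `β x = ∏_{w ∋ x} α_w` -/
noncomputable def be (α : A) (x : V) : A := ∏ w ∈ Finset.univ.filter (fun w => x ∈ g.pts w), g.s w α

theorem act_be (τ : A ≃ₐ[ℚ] A) {α : A} (hα : α ∈ g.K) (x : V) : τ (g.be α x) = g.be α (g.pm τ x) := by
  unfold be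
  rw [map_prod]
  refine Finset.prod_bij (fun w _ => g.am τ w) ?_ ?_ ?_ ?_
  · intro w hw
    rw [Finset.mem_filter] at hw ⊢
    exact ⟨Finset.mem_univ _, (g.mem_am τ w x).2 hw.2⟩
  · intro w _ w' _ h
    exact g.am_inj τ h
  · intro w hw
    rw [Finset.mem_filter] at hw
    obtain ⟨w', rfl⟩ := (g.am_bij τ).2 w
    exact ⟨w', by rw [Finset.mem_filter]; exact ⟨Finset.mem_univ _, (g.mem_am τ w' x).1 hw.2⟩, rfl⟩
  · intro w _
    exact g.act_s τ w hα

theorem be_mul (α β : A) (x : V) : g.be (α * β) x = g.be α x * g.be β x := by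
  unfold be
  simp [Finset.prod_mul_distrib]

theorem be_div (α β : A) (x : V) : g.be (α / β) x = g.be α x / g.be β x := by
  unfold be
  simp [Finset.prod_div_distrib]

theorem be_ne_zero {α : A} (hα : α ≠ 0) (x : V) : g.be α x ≠ 0 := by
  unfold be
  apply Finset.prod_ne_zero_iff.2
  intro w _
  exact g.s_ne_zero hα w

/-- `∏_{x ∈ w} β_x` -/
noncomputable def tb (α : A) (w : Ω) : A := ∏ x ∈ g.pts w, g.be α x

theorem act_tb (τ : A ≃ₐ[ℚ] A) {α : A} (hα : α ∈ g.K) (w : Ω) : τ (g.tb α w) = g.tb α (g.am τ w) := by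
  unfold tb
  rw [map_prod, g.pts_am, Finset.prod_image (fun x _ y _ h => g.pm_inj τ h)]
  exact Finset.prod_congr rfl fun x _ => g.act_be τ hα x

theorem tb_mem {α : A} (hα : α ∈ g.K) : g.tb α g.w0 ∈ g.K := (g.equi (fun τ w => g.act_tb τ hα w)).1

theorem s_tb {α : A} (hα : α ∈ g.K) (w : Ω) : g.s w (g.tb α g.w0) = g.tb α w :=
  (g.equi (fun τ w => g.act_tb τ hα w)).2 w

theorem tb_div (α β : A) (w : Ω) : g.tb (α / β) w = g.tb α w / g.tb β w := by
  unfold tb
  rw [← Finset.prod_div_distrib]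
  exact Finset.prod_congr rfl fun x _ => g.be_div α β x

theorem tb_ne_zero {α : A} (hα : α ≠ 0) (w : Ω) : g.tb α w ≠ 0 := by
  unfold tb
  exact Finset.prod_ne_zero_iff.2 fun x _ => g.be_ne_zero hα x

/-- The degree of `K`. -/
theorem finrank_K : finrank ℚ g.K = Fintype.card Ω := by
  classical
  rw [← AlgHom.card ℚ g.K A, ← Nat.card_eq_fintype_card, ← Nat.card_eq_fintype_card, eq_comm]
  let F : Ω → (g.K →ₐ[ℚ] A) := fun w => ((g.s w : A →ₐ[ℚ] A)).comp g.K.val
  apply Nat.card_eq_of_bijective F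
  constructor
  · intro w w' h
    have h1 : ∀ z ∈ g.K, ((g.s w).trans (g.s w').symm) z = z := by
      intro z hz
      have h2 := DFunLike.congr_fun h ⟨z, hz⟩
      have h3 : g.s w z = g.s w' z := h2
      rw [AlgEquiv.trans_apply, h3, AlgEquiv.symm_apply_apply]
    have h2 := (g.fix_iff _).1 h1
    have h3 := congrArg (g.am (g.s w')) h2
    rw [g.s_spec, ← g.am_trans] at h3
    rw [← h3]
    conv_lhs => rw [← g.s_spec w]
    congr 1
    ext z
    simp
  · intro φ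
    obtain ⟨σ, hσ⟩ : ∃ σ : A ≃ₐ[ℚ] A, ∀ z : g.K, σ z = φ z := by
      have hK : Algebra.IsAlgebraic g.K A := Algebra.IsAlgebraic.tower_top (K := ℚ) g.K
      obtain ⟨ψ, hψ⟩ := IsAlgClosed.surjective_domRestrict_of_isAlgebraic (K := ℚ) (L := g.K) (M := A) (E := A) φ
      refine ⟨AlgEquiv.ofBijective ψ (Algebra.IsAlgebraic.algHom_bijective ψ), ?_⟩
      intro z
      rw [← hψ]
      rfl
    refine ⟨g.am σ g.w0, ?_⟩
    ext z
    rw [← hσ z]
    exact (g.eq_s σ z.2).symm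

theorem of_int {z : g.K} (h : IsIntegral ℤ (z : A)) : IsIntegral ℤ z :=
  (isIntegral_algHom_iff (IntermediateField.val g.K |>.restrictScalars ℤ) Subtype.val_injective).1 h

theorem int_of {z : g.K} (hz : IsIntegral ℤ z) : IsIntegral ℤ (z : A) :=
  hz.map (IntermediateField.val g.K |>.restrictScalars ℤ)

/-- an integral element of `K` -/
noncomputable def io {x : A} (hx : x ∈ g.K) (hi : IsIntegral ℤ x) : 𝓞 g.K := ⟨⟨x, hx⟩, g.of_int hi⟩

/-- the absolute values of `K` -/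
noncomputable def wv (p : ℕ) [Fact p.Prime] (w : Ω) : 𝓞 g.K →*₀ ℝ where
  toFun z := W p (g.s w ((z : g.K) : A))
  map_zero' := by simp [W_zero]
  map_one' := by simp [W_one]
  map_mul' := by intro x y; simp [W_mul]

theorem wv_apply (p : ℕ) [Fact p.Prime] (w : Ω) (z : 𝓞 g.K) :
    g.wv p w z = W p (g.s w ((z : g.K) : A)) := rfl

theorem wv_io (p : ℕ) [Fact p.Prime] (w : Ω) {x : A} (hx : x ∈ g.K) (hi : IsIntegral ℤ x) :
    g.wv p w (g.io hx hi) = W p (g.s w x) := rfl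

theorem wv_na (p : ℕ) [Fact p.Prime] (w : Ω) : IsNA (g.wv p w) where
  na x y := by
    rw [wv_apply, wv_apply, wv_apply]
    push_cast
    rw [map_add]
    exact W_add_le p _ _
  le x := by
    rw [wv_apply]
    apply W_integral
    exact (g.int_of x.2).map ((g.s w : A →ₐ[ℚ] A).restrictScalars ℤ)
  nonneg x := W_nonneg p _
  ne x hx := by
    rw [wv_apply]
    intro h
    rw [W_eq_zero, map_eq_zero] at h
    apply hx
    have h1 : (x : g.K) = 0 := Subtype.ext h
    exact_mod_cast h1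

theorem wv_nat (p : ℕ) [Fact p.Prime] (w : Ω) (q : ℕ) : g.wv p w (q : 𝓞 g.K) = W p (q : A) := by
  rw [wv_apply]
  congr 1
  push_cast
  exact map_natCast _ _

end Geo

end Pool.Agent.H450.GW
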