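import Pool.Agent.H450.GW.Geo
import Pool.Agent.H450.GG.Rank

set_option autoImplicit false
set_option linter.unusedSectionVars false

namespace Pool.Agent.H450.GW

open Module NumberField Pool.Agent.H450.GG
open scoped nonZeroDivisors

namespace Geo

variable {A : Type} [Field A] [CharZero A] [Algebra.IsAlgebraic ℚ A] [IsAlgClosed A]
variable {V Ω : Type} [Fintype V] [DecidableEq V] [Fintype Ω] [DecidableEq Ω] (g : Geo A V Ω)
variable (M : ℕ) {N : ℕ} (P : Fin N → ℕ) [hP : ∀ k, Fact (P k).Prime] (ep : Fin N → V → ℤ)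

/-- the exponent at a block -/
def exo (k : Fin N) (w : Ω) : ℤ := ∑ x ∈ g.pts w, ep k x

/-- `z` generates `∏ (B k / C k) ^ v k` -/
structure Rel (z : A) (v : Fin N → ℤ) : Prop where
  mem : z ∈ g.K
  ne : z ≠ 0
  at_P : ∀ k w, W (P k) (g.s w z) = rho M (P k) ^ (g.exo ep k w * v k)
  off : ∀ (p : ℕ) [Fact p.Prime], (∀ k, P k ≠ p) → ∀ w, W p (g.s w z) = 1

variable {g M P ep}

theorem Rel.div {z z' : A} {v v' : Fin N → ℤ} (h : g.Rel M P ep z v) (h' : g.Rel M P ep z' v') :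
    g.Rel M P ep (z' / z) (v' - v) where
  mem := div_mem h'.mem h.mem
  ne := div_ne_zero h'.ne h.ne
  at_P k w := by
    rw [map_div₀, W_div, h.at_P k w, h'.at_P k w, ← zpow_sub₀ (rho_pos M (P k)).ne']
    congr 1
    rw [Pi.sub_apply]
    ring
  off p _ hp w := by
    rw [map_div₀, W_div, h.off p hp w, h'.off p hp w, div_one]

/-- relations between the classes -/
theorem rel_of_class (hinj : Function.Injective P) (B C : Fin N → (Ideal (𝓞 g.K))⁰)
    (hBC : ∀ k w, cont (g.wv (P k) w) (B k : Ideal (𝓞 g.K)) / cont (g.wv (P k) w) (C k : Ideal (𝓞 g.K)) =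
      rho M (P k) ^ g.exo ep k w)
    (hoff : ∀ k (p : ℕ) [Fact p.Prime], P k ≠ p → ∀ w,
      cont (g.wv p w) (B k : Ideal (𝓞 g.K)) / cont (g.wv p w) (C k : Ideal (𝓞 g.K)) = 1)
    (v : Fin N → ℤ) (h : ∏ k, (ClassGroup.mk0 (B k) * (ClassGroup.mk0 (C k))⁻¹) ^ (v k) = 1) :
    ∃ z, g.Rel M P ep z v := by
  classical
  obtain ⟨x, y, hx, hy, hxy⟩ := exists_quot _ _ v h
  have hx0 : (((x : g.K) : A)) ≠ 0 := by
    intro h0
    apply hx
    have h1 : (x : g.K) = 0 := Subtype.ext h0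
    exact_mod_cast h1
  have hy0 : (((y : g.K) : A)) ≠ 0 := by
    intro h0
    apply hy
    have h1 : (y : g.K) = 0 := Subtype.ext h0
    exact_mod_cast h1
  refine ⟨((y : g.K) : A) / ((x : g.K) : A), div_mem (y : g.K).2 (x : g.K).2, div_ne_zero hy0 hx0, ?_, ?_⟩
  · intro k w
    rw [map_div₀, W_div]
    have h1 := hxy (g.wv (P k) w) (g.wv_na (P k) w)
    rw [wv_apply, wv_apply] at h1
    rw [h1, Finset.prod_eq_single k]
    · rw [zpow_mul, ← hBC k w]
    · intro l _ hl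
      rw [hoff l (P k) (fun h => hl (hinj h)) w, one_zpow]
    · intro h; exact absurd (Finset.mem_univ k) h
  · intro p _ hp w
    rw [map_div₀, W_div]
    have h1 := hxy (g.wv p w) (g.wv_na p w)
    rw [wv_apply, wv_apply] at h1
    rw [h1]
    apply Finset.prod_eq_one
    intro l _
    rw [hoff l p (hp l) w, one_zpow]

theorem zpow_sum {ι : Type*} (s : Finset ι) (f : ι → ℤ) {x : ℝ} (hx : 0 < x) :
    x ^ (∑ j ∈ s, f j) = ∏ j ∈ s, x ^ f j := by
  classical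
  induction s using Finset.induction_on with
  | empty => simp
  | insert a s ha ih => rw [Finset.sum_insert ha, Finset.prod_insert ha, zpow_add₀ hx.ne', ih]

variable {c : ℕ} (hTT : ∀ k x, ∑ w ∈ Finset.univ.filter (fun w => x ∈ g.pts w), g.exo ep k w = c * ep k x)
include hTT

theorem Rel.be_P {z : A} {v : Fin N → ℤ} (h : g.Rel M P ep z v)
    (k : Fin N) (x : V) : W (P k) (g.be z x) = rho M (P k) ^ (c * ep k x * v k) := by
  unfold be
  rw [W_prod, ← hTT k x, Finset.sum_mul, zpow_sum _ _ (rho_pos M (P k))]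
  exact Finset.prod_congr rfl fun w _ => h.at_P k w

omit hTT in
theorem Rel.be_off {z : A} {v : Fin N → ℤ} (h : g.Rel M P ep z v) (p : ℕ) [Fact p.Prime] (hp : ∀ k, P k ≠ p)
    (x : V) : W p (g.be z x) = 1 := by
  unfold be
  rw [W_prod]
  exact Finset.prod_eq_one fun w _ => h.off p hp w

/-- the unit attached to a relation -/
theorem Rel.unit {z : A} {v : Fin N → ℤ} (h : g.Rel M P ep z v) :
    ∃ u : (𝓞 g.K)ˣ, ((((u : 𝓞 g.K) : g.K) : A)) = g.tb z g.w0 / z ^ c := by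
  set e := g.tb z g.w0 / z ^ c with he
  have hmem : e ∈ g.K := div_mem (g.tb_mem h.mem) (pow_mem h.mem c)
  have hne : e ≠ 0 := div_ne_zero (g.tb_ne_zero h.ne _) (pow_ne_zero c h.ne)
  have hs : ∀ w, g.s w e = g.tb z w / (g.s w z) ^ c := by
    intro w
    rw [he, map_div₀, g.s_tb h.mem w, map_pow]
  have hW : ∀ (p : ℕ) [Fact p.Prime] (w : Ω), W p (g.s w e) = 1 := by
    intro p _ w
    rw [hs w, W_div, W_pow]
    unfold tb
    rw [W_prod]
    by_cases hp : ∃ k, P k = p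
    · obtain ⟨k, rfl⟩ := hp
      have e1 : ∏ x ∈ g.pts w, W (P k) (g.be z x) = ∏ x ∈ g.pts w, rho M (P k) ^ (c * ep k x * v k) :=
        Finset.prod_congr rfl fun x _ => h.be_P hTT k x
      rw [e1, ← zpow_sum _ _ (rho_pos M (P k)), h.at_P k w, ← zpow_natCast, ← zpow_mul,
        ← zpow_sub₀ (rho_pos M (P k)).ne']
      have h2 : ∑ x ∈ g.pts w, (c : ℤ) * ep k x * v k - g.exo ep k w * v k * c = 0 := by
        unfold exo
        rw [Finset.sum_mul, Finset.sum_mul, ← Finset.sum_sub_distrib]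
        apply Finset.sum_eq_zero
        intro x _
        ring
      rw [h2, zpow_zero]
    · push Not at hp
      rw [Finset.prod_eq_one (fun x _ => h.be_off p hp x), h.off p hp w]
      norm_num
  have hWσ : ∀ (p : ℕ) [Fact p.Prime] (σ : A ≃ₐ[ℚ] A), W p (σ e) = 1 := by
    intro p _ σ
    rw [g.eq_s σ hmem]
    exact hW p _
  have h1 : IsIntegral ℤ e := integral_of_W fun p _ σ => (hWσ p σ).le
  have h2 : IsIntegral ℤ e⁻¹ := integral_of_W fun p _ σ => by
    rw [map_inv₀, W_inv, hWσ p σ, inv_one]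
  let e1 : 𝓞 g.K := ⟨⟨e, hmem⟩, g.of_int h1⟩
  let e2 : 𝓞 g.K := ⟨⟨e⁻¹, inv_mem hmem⟩, g.of_int h2⟩
  have h3 : e1 * e2 = 1 := by
    apply RingOfIntegers.ext
    apply Subtype.ext
    show e * e⁻¹ = 1
    exact mul_inv_cancel₀ hne
  exact ⟨⟨e1, e2, h3, by rw [mul_comm]; exact h3⟩, rfl⟩

/-- Four blocks with `w₁ + w₄ = w₂ + w₃` as functions on the points. -/
def Quad (g : Geo A V Ω) (w₁ w₂ w₃ w₄ : Ω) : Prop :=
  ∀ x, ((if x ∈ g.pts w₁ then 1 else 0 : ℤ) + if x ∈ g.pts w₄ then 1 else 0) =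
    (if x ∈ g.pts w₂ then 1 else 0) + if x ∈ g.pts w₃ then 1 else 0

omit hTT in
theorem prod_ite (w : Ω) (β : V → A) : ∏ x ∈ g.pts w, β x = ∏ x, β x ^ (if x ∈ g.pts w then 1 else 0 : ℤ) := by
  rw [← Finset.prod_subset (Finset.subset_univ (g.pts w))]
  · exact Finset.prod_congr rfl fun x hx => by rw [if_pos hx, zpow_one]
  · intro x _ hx
    rw [if_neg hx, zpow_zero]

omit hTT in
theorem quad_prod {w₁ w₂ w₃ w₄ : Ω} (hq : g.Quad w₁ w₂ w₃ w₄) {z : A} (hz : z ≠ 0) :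
    g.tb z w₁ * g.tb z w₄ = g.tb z w₂ * g.tb z w₃ := by
  unfold tb
  rw [prod_ite, prod_ite, prod_ite, prod_ite, ← Finset.prod_mul_distrib, ← Finset.prod_mul_distrib]
  refine Finset.prod_congr rfl fun x _ => ?_
  rw [← zpow_add₀ (g.be_ne_zero hz x), ← zpow_add₀ (g.be_ne_zero hz x), hq x]

omit hTT in
/-- The quotient attached to a quadruple is a root of unity. -/
theorem kappa_pow {z : A} (hz : z ≠ 0) (hzm : z ∈ g.K) {γ : A} 
    (hp : g.tb z g.w0 = γ ^ M) {w₁ w₂ w₃ w₄ : Ω} (hq : g.Quad w₁ w₂ w₃ w₄) :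
    (g.s w₁ γ * g.s w₄ γ / (g.s w₂ γ * g.s w₃ γ)) ^ M = 1 := by
  have hpw : ∀ w, g.tb z w = g.s w γ ^ M := by
    intro w
    rw [← g.s_tb hzm w, hp, map_pow]
  rw [div_pow, mul_pow, mul_pow, ← hpw, ← hpw, ← hpw, ← hpw, quad_prod hq hz,
    div_self (mul_ne_zero (g.tb_ne_zero hz _) (g.tb_ne_zero hz _))]

/-- The main divisibility. -/
theorem Rel.dvd (hM : M ≠ 0) (hMc : M ∣ c) {z : A} {v : Fin N → ℤ} (h : g.Rel M P ep z v) {γ : A} (hγ : γ ∈ g.K)
    (hp : g.tb z g.w0 = γ ^ M)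
    (hκ : ∀ w₁ w₂ w₃ w₄ : Ω, g.Quad w₁ w₂ w₃ w₄ → g.s w₁ γ * g.s w₄ γ = g.s w₂ γ * g.s w₃ γ)
    (k : Fin N) (x₁ x₂ : V) (w₁ w₂ : Ω) (h1Q : g.r x₁ ∈ Q A (P k)) (h2Q : g.r x₂ ∈ Q A (P k))
    (hw : ∀ x, ((if x ∈ g.pts w₁ then 1 else 0 : ℤ) + if x = x₂ then 1 else 0) =
      (if x ∈ g.pts w₂ then 1 else 0) + if x = x₁ then 1 else 0) :
    (M : ℤ) ∣ (c / M : ℕ) * (ep k x₁ - ep k x₂) * v k := by
  classical
  have hγ0 : γ ≠ 0 := by
    rintro rfl
    rw [zero_pow hM] at hp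
    exact g.tb_ne_zero h.ne _ hp
  have hpw : ∀ w, g.tb z w = g.s w γ ^ M := by
    intro w
    rw [← g.s_tb h.mem w, hp, map_pow]
  set D : A := g.s w₁ γ / g.s w₂ γ with hD
  have hDmem : D ∈ IntermediateField.adjoin ℚ {g.r x₁, g.r x₂} := by
    apply mem_of_fixed
    intro σ hσ
    have h1 : g.pm σ x₁ = x₁ := g.pm_eq (hσ _ (IntermediateField.subset_adjoin _ _ (by simp)))
    have h2 : g.pm σ x₂ = x₂ := g.pm_eq (hσ _ (IntermediateField.subset_adjoin _ _ (by simp)))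
    have h3 : g.Quad (g.am σ w₁) (g.am σ w₂) w₁ w₂ := by
      intro y
      obtain ⟨x, rfl⟩ := (g.pm_bij σ).2 y
      have e1 := hw x
      have e2 := hw (g.pm σ x)
      simp only [g.mem_am]
      have e3 : (g.pm σ x = x₂) ↔ x = x₂ := by
        constructor
        · intro h; apply g.pm_inj σ; rw [h, h2]
        · rintro rfl; exact h2
      have e4 : (g.pm σ x = x₁) ↔ x = x₁ := by
        constructor
        · intro h; apply g.pm_inj σ; rw [h, h1]
        · rintro rfl; exact h1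
      rw [if_congr e3 rfl rfl, if_congr e4 rfl rfl] at e2
      linarith
    have h4 := hκ _ _ _ _ h3
    rw [hD, map_div₀, g.act_s σ w₁ hγ, g.act_s σ w₂ hγ, div_eq_div_iff (g.s_ne_zero hγ0 _) (g.s_ne_zero hγ0 _)]
    linear_combination h4
  have hDQ : D ∈ Q A (P k) := by
    have h1 : IntermediateField.adjoin ℚ {g.r x₁, g.r x₂} ≤ Q A (P k) := by
      rw [IntermediateField.adjoin_le_iff]
      rintro w (rfl | hw)
      · exact h1Q
      · rw [Set.mem_singleton_iff] at hw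
        rw [hw]
        exact h2Q
    exact h1 hDmem
  have hD0 : D ≠ 0 := div_ne_zero (g.s_ne_zero hγ0 _) (g.s_ne_zero hγ0 _)
  obtain ⟨t, ht⟩ := W_Q (P k) hDQ hD0
  -- the power of `D`
  have hDM : D ^ M * g.be z x₂ = g.be z x₁ := by
    have h1 : g.tb z w₁ * g.be z x₂ = g.tb z w₂ * g.be z x₁ := by
      have h2 : ∀ x₀ : V, g.be z x₀ = ∏ x, g.be z x ^ (if x = x₀ then 1 else 0 : ℤ) := by
        intro x₀
        rw [Finset.prod_eq_single x₀]
        · simp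
        · intro x _ hx
          rw [if_neg hx, zpow_zero]
        · intro hx; exact absurd (Finset.mem_univ x₀) hx
      conv_lhs => rw [h2 x₂]
      conv_rhs => rw [h2 x₁]
      unfold tb
      rw [prod_ite, prod_ite, ← Finset.prod_mul_distrib, ← Finset.prod_mul_distrib]
      refine Finset.prod_congr rfl fun x _ => ?_
      rw [← zpow_add₀ (g.be_ne_zero h.ne x), ← zpow_add₀ (g.be_ne_zero h.ne x), hw x]
    rw [hD, div_pow, ← hpw, ← hpw]
    have h3 := g.tb_ne_zero h.ne w₂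
    field_simp
    linear_combination h1
  have h2 := congrArg (W (P k)) hDM
  rw [W_mul, W_pow, ht, h.be_P hTT k x₂, h.be_P hTT k x₁] at h2
  obtain ⟨c', rfl⟩ := hMc
  rw [Nat.mul_div_cancel_left c' (Nat.pos_of_ne_zero hM)]
  have hp0 : ((P k : ℕ) : ℝ) ≠ 0 := by exact_mod_cast (hP k).out.ne_zero
  have hp1 : (1 : ℝ) < ((P k : ℕ) : ℝ) := by exact_mod_cast (hP k).out.one_lt
  have h5 : ∀ x, rho M (P k) ^ (((M * c' : ℕ) : ℤ) * ep k x * v k) = ((P k : ℕ) : ℝ) ^ (-(c' * ep k x * v k) : ℤ) := by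
    intro x
    have h6 : ((M * c' : ℕ) : ℤ) * ep k x * v k = (M : ℤ) * (c' * ep k x * v k) := by push_cast; ring
    rw [h6, zpow_mul, zpow_natCast, rho_pow hM, inv_zpow']
  rw [h5, h5, ← zpow_natCast, ← zpow_mul, ← zpow_add₀ hp0] at h2
  have h4 := zpow_right_injective₀ (by linarith) hp1.ne' h2
  exact ⟨-t, by linarith⟩

/-- The rank of the class group. -/
theorem rank {μ : ℕ} [NeZero μ] (hM : M ≠ 0) (hMc : M ∣ c) (hinj : Function.Injective P)
    (B C : Fin N → (Ideal (𝓞 g.K))⁰)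
    (hBC : ∀ k w, cont (g.wv (P k) w) (B k : Ideal (𝓞 g.K)) / cont (g.wv (P k) w) (C k : Ideal (𝓞 g.K)) =
      rho M (P k) ^ g.exo ep k w)
    (hoff : ∀ k (p : ℕ) [Fact p.Prime], P k ≠ p → ∀ w,
      cont (g.wv p w) (B k : Ideal (𝓞 g.K)) / cont (g.wv p w) (C k : Ideal (𝓞 g.K)) = 1)
    (x₁ x₂ : Fin N → V) (w₁ w₂ : Fin N → Ω) (h1Q : ∀ k, g.r (x₁ k) ∈ Q A (P k)) (h2Q : ∀ k, g.r (x₂ k) ∈ Q A (P k))
    (hw : ∀ k x, ((if x ∈ g.pts (w₁ k) then 1 else 0 : ℤ) + if x = x₂ k then 1 else 0) =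
      (if x ∈ g.pts (w₂ k) then 1 else 0) + if x = x₁ k then 1 else 0)
    (hμ : ∀ k (t : ℤ), (M : ℤ) ∣ (c / M : ℕ) * (ep k (x₁ k) - ep k (x₂ k)) * t → (μ : ℤ) ∣ t) :
    ∃ f : Multiplicative (Fin (N - M ^ (Fintype.card Ω) * M ^ (Fintype.card Ω ^ 4)) → ZMod μ) →* ClassGroup (𝓞 g.K),
      Function.Injective f := by
  classical
  have : NeZero M := ⟨hM⟩
  obtain ⟨T, hT, U, hTc, hU⟩ := Pool.Agent.R493.CR.unit_classes g.K M
  rw [g.finrank_K] at hTc
  let x : Fin N → ClassGroup (𝓞 g.K) := fun k => ClassGroup.mk0 (B k) * (ClassGroup.mk0 (C k))⁻¹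
  -- the element and the unit attached to a relation
  have hz : ∀ v : {v : Fin N → ℤ // ∏ k, x k ^ v k = 1}, ∃ z, g.Rel M P ep z v.1 := fun v =>
    rel_of_class hinj B C hBC hoff v.1 v.2
  choose z hz using hz
  have hu : ∀ v, ∃ u : (𝓞 g.K)ˣ, ((((u : 𝓞 g.K) : g.K) : A)) = g.tb (z v) g.w0 / z v ^ c :=
    fun v => (hz v).unit hTT
  choose u hu using hu
  obtain ⟨base, hbase⟩ : ∃ base : T → Option {v : Fin N → ℤ // ∏ k, x k ^ v k = 1},
      ∀ v, ∃ w, base (U (u v)) = some w ∧ U (u w) = U (u v) := by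
    refine ⟨fun t => if h : ∃ w, U (u w) = t then some h.choose else none, ?_⟩
    intro v
    have h : ∃ w, U (u w) = U (u v) := ⟨v, rfl⟩
    refine ⟨h.choose, ?_, h.choose_spec⟩
    simp only
    rw [dif_pos h]
  choose w hw1 hw2 using hbase
  -- the element `γ`
  have hγ : ∀ v, ∃ γ ∈ g.K, γ ≠ 0 ∧ g.tb (z v / z (w v)) g.w0 = γ ^ M := by
    intro v
    obtain ⟨e, he⟩ := hU _ _ (hw2 v)
    have h1 := congrArg (fun t : (𝓞 g.K)ˣ => ((((t : 𝓞 g.K) : g.K) : A))) he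
    simp only [Units.val_mul, Units.val_pow_eq_pow_val] at h1
    push_cast at h1
    rw [hu, hu] at h1
    have hz1 := (hz v).ne
    have hz2 := (hz (w v)).ne
    have hb1 := g.tb_ne_zero hz2 g.w0
    have he0 : ((((e : 𝓞 g.K) : g.K) : A)) ≠ 0 := by
      intro h0
      have h2 : ((e : 𝓞 g.K) : g.K) = 0 := Subtype.ext h0
      have h3 : (e : 𝓞 g.K) = 0 := by exact_mod_cast h2
      exact e.ne_zero h3
    refine ⟨((((e : 𝓞 g.K) : g.K) : A)) * (z v / z (w v)) ^ (c / M),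
      mul_mem (SetLike.coe_mem _) (pow_mem (div_mem (hz v).mem (hz (w v)).mem) _),
      mul_ne_zero he0 (pow_ne_zero _ (div_ne_zero hz1 hz2)), ?_⟩
    rw [g.tb_div, mul_pow, ← pow_mul, Nat.div_mul_cancel hMc, div_pow]
    field_simp at h1 ⊢
    linear_combination h1
  choose γ hγ1 hγ0 hγ2 using hγ
  -- the roots of unity
  let Z : Finset A := (Polynomial.nthRootsFinset M (1 : A))
  have hZ1 : (1 : A) ∈ Z := by
    rw [Polynomial.mem_nthRootsFinset (Nat.pos_of_ne_zero hM)]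
    simp
  let sg : {v : Fin N → ℤ // ∏ k, x k ^ v k = 1} → (Ω → Ω → Ω → Ω → Z) := fun v a b c d =>
    if h : g.s a (γ v) * g.s d (γ v) / (g.s b (γ v) * g.s c (γ v)) ∈ Z then ⟨_, h⟩ else ⟨1, hZ1⟩
  apply rank_of_relations (ClassGroup (𝓞 g.K)) μ N _ x (T × (Ω → Ω → Ω → Ω → Z)) ?_
    (fun v => (U (u v), sg v))
  · -- the divisibility
    intro v v' h
    rw [Prod.mk.injEq] at h
    obtain ⟨h1, h2⟩ := h
    have hww : w v = w v' := by
      have h3 := hw1 v
      rw [h1, hw1 v'] at h3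
      exact (Option.some.inj h3).symm
    have hrel := (hz v).div (hz v')
    have hpow : g.tb (z v' / z v) g.w0 = (γ v' / γ v) ^ M := by
      rw [div_pow, ← hγ2, ← hγ2, ← hww]
      simp only [g.tb_div]
      have e1 := g.tb_ne_zero (hz v).ne g.w0
      have e3 := g.tb_ne_zero (hz (w v)).ne g.w0
      field_simp
    have hmem : γ v' / γ v ∈ g.K := div_mem (hγ1 v') (hγ1 v)
    intro k
    apply hμ k
    refine hrel.dvd hTT hM hMc hmem hpow ?_ k (x₁ k) (x₂ k) (w₁ k) (w₂ k) (h1Q k) (h2Q k) (hw k)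
    intro a b c' d hq
    have hs := congrFun (congrFun (congrFun (congrFun h2 a) b) c') d
    have hz1 := (hz v).ne
    have hz1' := (hz v').ne
    have hz2 := (hz (w v)).ne
    have hz2' := (hz (w v')).ne
    have hk1 := kappa_pow (div_ne_zero hz1 hz2) (div_mem (hz v).mem (hz (w v)).mem) (hγ2 v) hq
    have hk2 := kappa_pow (div_ne_zero hz1' hz2') (div_mem (hz v').mem (hz (w v')).mem) (hγ2 v') hq
    have hm1 : g.s a (γ v) * g.s d (γ v) / (g.s b (γ v) * g.s c' (γ v)) ∈ Z := by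
      rw [Polynomial.mem_nthRootsFinset (Nat.pos_of_ne_zero hM)]
      exact hk1
    have hm2 : g.s a (γ v') * g.s d (γ v') / (g.s b (γ v') * g.s c' (γ v')) ∈ Z := by
      rw [Polynomial.mem_nthRootsFinset (Nat.pos_of_ne_zero hM)]
      exact hk2
    simp only [sg] at hs
    rw [dif_pos hm1, dif_pos hm2, Subtype.mk.injEq] at hs
    have n1 := g.s_ne_zero (hγ0 v) a
    have n2 := g.s_ne_zero (hγ0 v) b
    have n3 := g.s_ne_zero (hγ0 v) c'
    have n4 := g.s_ne_zero (hγ0 v) d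
    have n5 := g.s_ne_zero (hγ0 v') b
    have n6 := g.s_ne_zero (hγ0 v') c'
    rw [div_eq_div_iff (mul_ne_zero n2 n3) (mul_ne_zero n5 n6)] at hs
    rw [map_div₀, map_div₀, map_div₀, map_div₀]
    field_simp
    linear_combination -hs
  · -- the number of the classes
    rw [Nat.card_prod, Nat.card_eq_fintype_card, Nat.card_eq_fintype_card]
    have hZc : Fintype.card Z ≤ M := by
      rw [Fintype.card_coe]
      simp only [Z, Polynomial.nthRootsFinset_def]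
      exact (Multiset.toFinset_card_le _).trans (Polynomial.card_nthRoots M 1)
    have h1 : Fintype.card (Ω → Ω → Ω → Ω → Z) ≤ M ^ (Fintype.card Ω ^ 4) := by
      simp only [Fintype.card_pi, Finset.prod_const, Finset.card_univ]
      rw [← pow_mul, ← pow_mul, ← pow_mul]
      have h2 : Fintype.card Ω * (Fintype.card Ω * (Fintype.card Ω * Fintype.card Ω)) = Fintype.card Ω ^ 4 := by ring
      rw [h2]
      exact Nat.pow_le_pow_left hZc _
    calc Fintype.card T * Fintype.card (Ω → Ω → Ω → Ω → Z) ≤ M ^ (Fintype.card Ω) * M ^ (Fintype.card Ω ^ 4) :=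
          Nat.mul_le_mul hTc h1
      _ ≤ 2 ^ (M ^ (Fintype.card Ω) * M ^ (Fintype.card Ω ^ 4)) := Nat.lt_two_pow_self.le

end Geo

end Pool.Agent.H450.GW
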