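import Pool.Agent.H450.GW.WIdl
import Pool.Agent.H450.GG.Fin

set_option autoImplicit false
set_option linter.unusedSectionVars false

namespace Pool.Agent.H450.GW

open Polynomial Module NumberField Pool.Agent.H450.GG
open Pool.Agent.R493.CR (S)

theorem monic_deg_A' (M : ℕ) (e : ℤ) : ((X - C 1) * (X - C e) ^ M : ℤ[X]).Monic ∧
    ((X - C 1) * (X - C e) ^ M : ℤ[X]).natDegree = M + 1 := by
  refine ⟨(monic_X_sub_C 1).mul ((monic_X_sub_C e).pow M), ?_⟩
  rw [(monic_X_sub_C 1).natDegree_mul ((monic_X_sub_C e).pow M), (monic_X_sub_C e).natDegree_pow,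
    natDegree_X_sub_C, natDegree_X_sub_C]
  ring

theorem monic_deg_D' {n : ℕ} (u : Fin n → ℤ) : (∏ j : Fin n, (X - C (u j)) : ℤ[X]).Monic ∧
    (∏ j : Fin n, (X - C (u j)) : ℤ[X]).natDegree = n := by
  refine ⟨monic_prod_of_monic _ _ fun j _ => monic_X_sub_C _, ?_⟩
  rw [natDegree_prod_of_monic _ _ fun j _ => monic_X_sub_C _,
    Finset.sum_congr rfl fun j _ => natDegree_X_sub_C _]
  simp

/-- transitivity -/
theorem trans_C {A : Type} [Field A] [CharZero A] [Algebra.IsAlgebraic ℚ A] [IsAlgClosed A] {n : ℕ} (hn : n ≠ 0)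
    {f h1 : ℤ[X]} {θ : Fin n → A} (h : Rts f θ) (hinj : Function.Injective θ)
    (q : ℕ) [Fact q.Prime] (hf1 : f = X ^ n + C (q : ℤ) + C ((q : ℤ) ^ 2) * h1) (i j : Fin n) :
    ∃ σ : A ≃ₐ[ℚ] A, σ (θ i) = θ j := by
  classical
  have hcard : (Finset.univ.image θ).card = n := by
    rw [Finset.card_image_of_injective _ hinj, Finset.card_univ, Fintype.card_fin]
  obtain ⟨σ, -, hσ⟩ := trans_of_val q (⊥ : IntermediateField ℚ A) bot_le (Finset.univ.image θ)
    (by rw [hcard]; exact hn)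
    (by
      intro r hr
      obtain ⟨k, -, rfl⟩ := Finset.mem_image.1 hr
      rw [hcard]
      exact type_C q h hf1 k)
    (θ i) (Finset.mem_image_of_mem θ (Finset.mem_univ i))
    (by
      intro σ _
      obtain ⟨k, hk⟩ := h.perm σ i
      rw [hk]
      exact Finset.mem_image_of_mem θ (Finset.mem_univ k))
    (θ j) (Finset.mem_image_of_mem θ (Finset.mem_univ j))
  exact ⟨σ, hσ⟩

/-- `S(n b ^ (n - 1), μ)` for `μ ∣ n - 1` prime to `b` -/
theorem main (n b μ : ℕ) (hn : 3 ≤ n) (hb2 : 2 ≤ b) (hμ : μ ∣ n - 1) (hcop : Nat.Coprime b μ) :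
    S (n * b ^ (n - 1)) μ := by
  classical
  intro R
  have hμ0 : μ ≠ 0 := by
    rintro rfl
    rw [Nat.zero_dvd] at hμ
    omega
  have : NeZero μ := ⟨hμ0⟩
  have := alg_closure
  have hb : b ≠ 0 := by omega
  have hbN : NeZero b := ⟨hb⟩
  set Bd : ℕ := (n - 1) ^ (Fintype.card (Bl n b)) * (n - 1) ^ (Fintype.card (Bl n b) ^ 4) with hBd
  obtain ⟨N, hN⟩ : ∃ N, N = R + Bd := ⟨_, rfl⟩
  -- the primes
  obtain ⟨L, hL1, hL2, hL3⟩ : ∃ L : ℕ, 2 ^ b ≤ L ∧ n ^ b ≤ L ∧ b ≤ L :=
    ⟨max (2 ^ b) (max (n ^ b) b), le_max_left _ _, (le_max_left _ _).trans (le_max_right _ _),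
      (le_max_right _ _).trans (le_max_right _ _)⟩
  let Q : ℕ → Prop := fun p => p.Prime ∧ p ≡ 1 [MOD b] ∧ L < p
  have hQinf : (Set.ofPred Q).Infinite := by
    rw [Set.infinite_iff_exists_gt]
    intro m
    obtain ⟨p, hp, hpm, hp1⟩ := Nat.exists_prime_gt_modEq_one (k := b) (m + L) hb
    exact ⟨p, ⟨hp, hp1, by omega⟩, by omega⟩
  let r : ℕ → ℕ := Nat.nth Q
  have hrQ : ∀ k, Q (r k) := fun k => Nat.nth_mem_of_infinite hQinf k
  have hr : ∀ k, (r k).Prime := fun k => (hrQ k).1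
  have hrL : ∀ k, L < r k := fun k => (hrQ k).2.2
  have hrb : ∀ k, b ∣ r k - 1 := fun k => (Nat.modEq_iff_dvd' (hr k).one_lt.le).1 (hrQ k).2.1.symm
  have hrinj : Function.Injective r := Nat.nth_injective hQinf
  have hrnb : ∀ k, ¬ r k ∣ b := by
    intro k h
    have h1 := Nat.le_of_dvd (by omega) h
    have h2 := hrL k
    omega
  let e : ℤ := 2 ^ b
  have hre : ∀ k, ¬ (r k : ℤ) ∣ 1 - e := by
    intro k
    have h1 : (1 : ℤ) < 2 ^ b := one_lt_pow₀ (by norm_num) hb
    have h2 := hrL k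
    have h3 : (2 ^ b : ℤ) < r k := by exact_mod_cast lt_of_le_of_lt hL1 h2
    intro hd
    simp only [e] at hd
    have h4 : (r k : ℤ) ∣ 2 ^ b - 1 := by
      have := dvd_neg.2 hd
      rwa [neg_sub] at this
    have h5 := Int.le_of_dvd (by linarith) h4
    linarith
  let G : Fin N ⊕ Fin 2 → ℤ[X] := Sum.elim (fun _ => (X - C 1) * (X - C e) ^ (n - 1))
    ![∏ j : Fin n, (X - C (((j : ℕ) : ℤ) ^ b)), X ^ n]
  let Pr : Fin N ⊕ Fin 2 → ℕ := Sum.elim (fun k => r k) ![r N, r (N + 1)]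
  have hPr : ∀ i, (Pr i).Prime := by
    rintro (k | k)
    · exact hr k
    · fin_cases k
      · exact hr N
      · exact hr (N + 1)
  have hPinj : Function.Injective Pr := by
    rintro (k | k) (l | l) h
    · have h1 : r k = r l := h
      have h2 := hrinj h1
      rw [Fin.ext h2]
    · exfalso
      fin_cases l
      · have h1 : r k = r N := h
        have := hrinj h1
        have := k.2
        omega
      · have h1 : r k = r (N + 1) := h
        have := hrinj h1
        have := k.2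
        omega
    · exfalso
      fin_cases k
      · have h1 : r N = r l := h
        have := hrinj h1
        have := l.2
        omega
      · have h1 : r (N + 1) = r l := h
        have := hrinj h1
        have := l.2
        omega
    · fin_cases k <;> fin_cases l
      · rfl
      · have h1 : r N = r (N + 1) := h
        have := hrinj h1
        omega
      · have h1 : r (N + 1) = r N := h
        have := hrinj h1
        omega
      · rfl
  have hG : ∀ i, (G i).Monic ∧ (G i).natDegree = n := by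
    rintro (k | k)
    · have := monic_deg_A' (n - 1) e
      have h1 : n - 1 + 1 = n := by omega
      rw [h1] at this
      exact this
    · fin_cases k
      · exact monic_deg_D' _
      · exact ⟨monic_X_pow n, natDegree_X_pow n⟩
  obtain ⟨f, hfm, hfd, hf⟩ := exists_poly n (by omega) Pr hPr hPinj G hG
  obtain ⟨θ, hθ⟩ := exists_rts (A := AlgebraicClosure ℚ) hfm hfd
  obtain ⟨h0, hf0⟩ := hf (Sum.inr 0)
  obtain ⟨h1, hf1⟩ := hf (Sum.inr 1)
  have hqN : Fact (r N).Prime := ⟨hr N⟩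
  have hqN1 : Fact (r (N + 1)).Prime := ⟨hr (N + 1)⟩
  choose y hy using fun j => IsAlgClosed.exists_pow_nat_eq (θ j) (Nat.pos_of_ne_zero hb)
  obtain ⟨ζ, hζ⟩ := HasEnoughRootsOfUnity.exists_primitiveRoot (AlgebraicClosure ℚ) b
  obtain ⟨hinj, hne, ht2⟩ := t2_of_D (r N) (by omega) hζ hb hθ hy (hrnb N) (hrb N)
    (by
      intro j k hjk
      have hjn : (j : ℕ) ^ b < n ^ b := Nat.pow_lt_pow_left j.2 hb
      have hkn : (k : ℕ) ^ b < n ^ b := Nat.pow_lt_pow_left k.2 hb
      have hrN := hrL N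
      have hne : (j : ℕ) ^ b ≠ (k : ℕ) ^ b := fun h => hjk (Fin.ext (Nat.pow_left_injective hb h))
      have e1 : (((j : ℕ) : ℤ) ^ b - ((k : ℕ) : ℤ) ^ b) = (((j : ℕ) ^ b : ℕ) : ℤ) - (((k : ℕ) ^ b : ℕ) : ℤ) := by
        push_cast
        ring
      rw [e1]
      intro hd
      have h3 : ((((j : ℕ) ^ b : ℕ) : ℤ) - (((k : ℕ) ^ b : ℕ) : ℤ)).natAbs < r N := by omega
      have h4 : ((((j : ℕ) ^ b : ℕ) : ℤ) - (((k : ℕ) ^ b : ℕ) : ℤ)) ≠ 0 := by omega
      have h5 := Int.natAbs_dvd_natAbs.2 hd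
      rw [Int.natAbs_natCast] at h5
      have h6 := Nat.le_of_dvd (Int.natAbs_pos.2 h4) h5
      omega) hf0
  let c : Wr (AlgebraicClosure ℚ) n b :=
    { θ := θ
      y := y
      ζ := ζ
      hζ := hζ
      hb := hb
      hn := by omega
      pow := hy
      inj := hinj
      ne := hne
      int := hθ.integral
      perm := hθ.perm
      t1 := fun i j => trans_C (by omega) hθ hinj (r (N + 1)) hf1 i j
      t2 := ht2 }
  have hP : ∀ k : Fin N, Fact (r k).Prime := fun k => ⟨hr k⟩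
  have hA : ∀ k : Fin N, ∃ a, Wr.TA c (n - 1) (r k) a e := by
    intro k
    obtain ⟨h', hf'⟩ := hf (Sum.inl k)
    obtain ⟨a, ha, hb'⟩ := type_A' (r k) hθ e (hre k) hf'
    exact ⟨a, ha, fun i hi => (hb' i hi).1, fun i hi => (hb' i hi).2, hrnb k⟩
  choose a hA using hA
  have hex := wrank c hn hb2 hμ hcop hθ (fun k : Fin N => r k) (fun k l h => Fin.ext (hrinj h)) a e hA
    (fun k => hrb k)
  have hR : N - (n - 1) ^ (Fintype.card (Bl n b)) * (n - 1) ^ (Fintype.card (Bl n b) ^ 4) = R := by omega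
  rw [hR] at hex
  obtain ⟨F, hF⟩ := hex
  exact ⟨c.geo.K, inferInstance, c.geo.nf, by rw [c.geo.finrank_K, card_Bl], F, hF⟩

end Pool.Agent.H450.GW
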