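import Pool.Agent.H450.GW.WLoc
import Pool.Agent.H450.GW.Geo

set_option autoImplicit false
set_option linter.unusedSectionVars false

namespace Pool.Agent.H450.GW

open Pool.Agent.H450.GG

/-- the points: pairs (number of a root, number of a `b`-th root) -/
abbrev Pt (n b : ℕ) := Fin n × Fin b

/-- the blocks: an index `i` and a choice of a `b`-th root at all other indices -/
abbrev Bl (n b : ℕ) := Σ i : Fin n, ({j : Fin n // j ≠ i} → Fin b)

/-- the points of a block -/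
def pt {n b : ℕ} (w : Bl n b) : Finset (Pt n b) := Finset.univ.filter (fun x => ∃ h : x.1 ≠ w.1, w.2 ⟨x.1, h⟩ = x.2)

theorem mem_pt {n b : ℕ} (w : Bl n b) (x : Pt n b) : x ∈ pt w ↔ ∃ h : x.1 ≠ w.1, w.2 ⟨x.1, h⟩ = x.2 := by
  unfold pt
  simp

theorem pt_inj {n b : ℕ} : Function.Injective (pt (n := n) (b := b)) := by
  rintro ⟨i, a⟩ ⟨i', a'⟩ h
  have h1 : ∀ j (hj : j ≠ i), ∃ h' : j ≠ i', a' ⟨j, h'⟩ = a ⟨j, hj⟩ := by
    intro j hj
    have h2 : (j, a ⟨j, hj⟩) ∈ pt (⟨i, a⟩ : Bl n b) := (mem_pt _ _).2 ⟨hj, rfl⟩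
    rw [h, mem_pt] at h2
    exact h2
  have hii : i = i' := by
    by_contra hne
    obtain ⟨h2, -⟩ := h1 i' (Ne.symm hne)
    exact h2 rfl
  subst hii
  congr 1
  funext j
  obtain ⟨_, h2⟩ := h1 j.1 j.2
  exact h2.symm

theorem exists_w {n b : ℕ} (S : Finset (Pt n b)) (i : Fin n) (h1 : ∀ s, (i, s) ∉ S)
    (h2 : ∀ j, j ≠ i → ∃ s, (j, s) ∈ S ∧ ∀ t, (j, t) ∈ S → t = s) : ∃ w : Bl n b, w.1 = i ∧ pt w = S := by
  choose a ha1 ha2 using h2
  refine ⟨⟨i, fun j => a j.1 j.2⟩, rfl, ?_⟩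
  ext ⟨j, s⟩
  rw [mem_pt]
  constructor
  · rintro ⟨h, hs⟩
    have h3 : a j h = s := hs
    rw [← h3]
    exact ha1 j h
  · intro hs
    have hj : j ≠ i := by
      rintro rfl
      exact h1 s hs
    exact ⟨hj, (ha2 j hj s hs).symm⟩

theorem card_Bl (n b : ℕ) : Fintype.card (Bl n b) = n * b ^ (n - 1) := by
  rw [Fintype.card_sigma]
  have h : ∀ i : Fin n, Fintype.card ({j : Fin n // j ≠ i} → Fin b) = b ^ (n - 1) := by
    intro i
    rw [Fintype.card_fun, Fintype.card_fin]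
    congr 1
    simp
  rw [Finset.sum_congr rfl fun i _ => h i]
  simp

theorem card_pt {n b : ℕ} (w : Bl n b) : (pt w).card = n - 1 := by
  have h1 : (pt w).card = (Finset.univ : Finset {j : Fin n // j ≠ w.1}).card := by
    symm
    refine Finset.card_bij (fun j _ => (j.1, w.2 j)) ?_ ?_ ?_
    · intro j _
      rw [mem_pt]
      exact ⟨j.2, rfl⟩
    · intro j _ k _ h
      exact Subtype.ext (congrArg Prod.fst h)
    · rintro ⟨j, s⟩ hx
      rw [mem_pt] at hx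
      obtain ⟨h, hs⟩ := hx
      exact ⟨⟨j, h⟩, Finset.mem_univ _, by rw [hs]⟩
  rw [h1, Finset.card_univ]
  simp

/-- roots with their `b`-th roots, with a large group of automorphisms -/
structure Wr (A : Type) [Field A] [CharZero A] (n b : ℕ) where
  θ : Fin n → A
  y : Fin n → A
  ζ : A
  hζ : IsPrimitiveRoot ζ b
  hb : b ≠ 0
  hn : 2 ≤ n
  pow : ∀ j, y j ^ b = θ j
  inj : Function.Injective θ
  ne : ∀ j, θ j ≠ 0
  int : ∀ j, IsIntegral ℤ (θ j)
  perm : ∀ (σ : A ≃ₐ[ℚ] A) (j : Fin n), ∃ k, σ (θ j) = θ k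
  t1 : ∀ i j, ∃ σ : A ≃ₐ[ℚ] A, σ (θ i) = θ j
  t2 : ∃ j0 : Fin n, ∀ s t : Fin b, ∃ σ : A ≃ₐ[ℚ] A,
    (∀ j, j ≠ j0 → ∀ u : Fin b, σ (ζ ^ (u : ℕ) * y j) = ζ ^ (u : ℕ) * y j) ∧
      σ (ζ ^ (s : ℕ) * y j0) = ζ ^ (t : ℕ) * y j0

namespace Wr

variable {A : Type} [Field A] [CharZero A] [Algebra.IsAlgebraic ℚ A] [IsAlgClosed A]
variable {n b : ℕ} (c : Wr A n b)

/-- the points -/
def r (x : Pt n b) : A := c.ζ ^ (x.2 : ℕ) * c.y x.1

theorem r_pow (x : Pt n b) : c.r x ^ b = c.θ x.1 := by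
  unfold r
  rw [mul_pow, c.pow, ← pow_mul, mul_comm (x.2 : ℕ), pow_mul, c.hζ.pow_eq_one, one_pow, one_mul]

theorem y_ne (j : Fin n) : c.y j ≠ 0 := by
  intro h
  have h1 := c.pow j
  rw [h, zero_pow c.hb] at h1
  exact c.ne j h1.symm

theorem r_inj : Function.Injective c.r := by
  rintro ⟨j, s⟩ ⟨k, t⟩ h
  have h1 := congrArg (· ^ b) h
  simp only [r_pow] at h1
  have h2 : j = k := c.inj h1
  subst h2
  unfold r at h
  have h3 := mul_right_cancel₀ (c.y_ne j) h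
  have h4 : s = t := Fin.ext (c.hζ.pow_inj s.2 t.2 h3)
  rw [h4]

theorem of_pow {z : A} {k : Fin n} (h : z ^ b = c.θ k) : ∃ s, z = c.r (k, s) := by
  have hb : NeZero b := ⟨c.hb⟩
  have h1 : (z / c.y k) ^ b = 1 := by
    rw [div_pow, h, c.pow, div_self (c.ne k)]
  obtain ⟨i, hi, h2⟩ := c.hζ.eq_pow_of_pow_eq_one h1
  refine ⟨⟨i, hi⟩, ?_⟩
  unfold r
  rw [h2, div_mul_cancel₀ _ (c.y_ne k)]

theorem r_perm (σ : A ≃ₐ[ℚ] A) (x : Pt n b) : ∃ y, σ (c.r x) = c.r y ∧ σ (c.θ x.1) = c.θ y.1 := by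
  obtain ⟨k, hk⟩ := c.perm σ x.1
  obtain ⟨s, hs⟩ := c.of_pow (z := σ (c.r x)) (k := k) (by rw [← map_pow, c.r_pow, hk])
  exact ⟨(k, s), hs, hk⟩

theorem r_int (x : Pt n b) : IsIntegral ℤ (c.r x) := by
  apply IsIntegral.of_pow (Nat.pos_of_ne_zero c.hb)
  rw [c.r_pow]
  exact c.int _

theorem idx {σ : A ≃ₐ[ℚ] A} {x y : Pt n b} (h : σ (c.r x) = c.r y) : σ (c.θ x.1) = c.θ y.1 := by
  rw [← c.r_pow, ← c.r_pow, map_pow, h]

theorem idx_surj (σ : A ≃ₐ[ℚ] A) (k : Fin n) : ∃ j, σ (c.θ j) = c.θ k := by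
  obtain ⟨j, hj⟩ := c.perm σ.symm k
  exact ⟨j, by rw [← hj, AlgEquiv.apply_symm_apply]⟩

theorem act (σ : A ≃ₐ[ℚ] A) (w : Bl n b) {i : Fin n} (hi : σ (c.θ w.1) = c.θ i) :
    ∃ w' : Bl n b, w'.1 = i ∧ ∀ x y, σ (c.r x) = c.r y → (x ∈ pt w ↔ y ∈ pt w') := by
  classical
  set S : Finset (Pt n b) := Finset.univ.filter (fun y => ∃ x ∈ pt w, σ (c.r x) = c.r y) with hS
  have hmS : ∀ y, y ∈ S ↔ ∃ x ∈ pt w, σ (c.r x) = c.r y := by
    intro y
    rw [hS]
    simp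
  obtain ⟨w', hw1, hw2⟩ := exists_w S i (by
    intro s hs
    obtain ⟨x, hx, h⟩ := (hmS _).1 hs
    have h1 := c.idx h
    rw [← hi] at h1
    have h2 := c.inj (σ.injective h1)
    obtain ⟨h3, -⟩ := (mem_pt _ _).1 hx
    exact h3 h2) (by
    intro j hj
    obtain ⟨k, hk⟩ := c.idx_surj σ j
    have hkw : k ≠ w.1 := by
      rintro rfl
      rw [hi] at hk
      exact hj (c.inj hk).symm
    obtain ⟨⟨j', s⟩, hy1, hy2⟩ := c.r_perm σ (k, w.2 ⟨k, hkw⟩)
    have hjj : j' = j := c.inj (hy2.symm.trans hk)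
    subst hjj
    refine ⟨s, (hmS _).2 ⟨_, (mem_pt _ _).2 ⟨hkw, rfl⟩, hy1⟩, ?_⟩
    intro t ht
    obtain ⟨⟨k', u⟩, hx, h⟩ := (hmS _).1 ht
    have h1 := c.idx h
    have h2 : k' = k := c.inj (σ.injective (h1.trans hk.symm))
    subst h2
    obtain ⟨h3, h4⟩ := (mem_pt _ _).1 hx
    simp only at h4
    rw [← h4, hy1] at h
    exact (congrArg Prod.snd (c.r_inj h)).symm)
  refine ⟨w', hw1, ?_⟩
  intro x y hxy
  rw [hw2, hmS]
  constructor
  · intro hx; exact ⟨x, hx, hxy⟩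
  · rintro ⟨x', hx', h⟩
    rw [← hxy] at h
    rw [← c.r_inj (σ.injective h)]
    exact hx'

/-- changing one `b`-th root -/
theorem t2' (j : Fin n) (s t : Fin b) : ∃ σ : A ≃ₐ[ℚ] A,
    (∀ x : Pt n b, x.1 ≠ j → σ (c.r x) = c.r x) ∧ σ (c.r (j, s)) = c.r (j, t) := by
  obtain ⟨j0, h⟩ := c.t2
  obtain ⟨τ, hτ⟩ := c.t1 j0 j
  obtain ⟨⟨k, s'⟩, hs1, hs2⟩ := c.r_perm τ.symm (j, s)
  obtain ⟨⟨k', t'⟩, ht1, ht2⟩ := c.r_perm τ.symm (j, t)
  simp only [← hτ, AlgEquiv.symm_apply_apply] at hs2 ht2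
  have hk : j0 = k := c.inj hs2
  have hk' : j0 = k' := c.inj ht2
  subst hk hk'
  obtain ⟨σ, h1, h2⟩ := h s' t'
  refine ⟨(τ.symm.trans σ).trans τ, ?_, ?_⟩
  · intro x hx
    rw [AlgEquiv.trans_apply, AlgEquiv.trans_apply]
    obtain ⟨y, hy1, hy2⟩ := c.r_perm τ.symm x
    have hne : y.1 ≠ j0 := by
      intro h3
      rw [h3] at hy2
      have h4 := congrArg τ hy2
      rw [AlgEquiv.apply_symm_apply, hτ] at h4
      exact hx (c.inj h4)
    have h3 : σ (c.r y) = c.r y := h1 y.1 hne y.2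
    rw [hy1, h3, ← hy1, AlgEquiv.apply_symm_apply]
  · rw [AlgEquiv.trans_apply, AlgEquiv.trans_apply, hs1]
    have h3 : σ (c.r (j0, s')) = c.r (j0, t') := h2
    rw [h3, ← ht1, AlgEquiv.apply_symm_apply]

theorem tr_step (i : Fin n) (a a' : {j : Fin n // j ≠ i} → Fin b) (s : Finset {j : Fin n // j ≠ i}) :
    ∃ σ : A ≃ₐ[ℚ] A, ∀ x y, σ (c.r x) = c.r y →
      (x ∈ pt (⟨i, a⟩ : Bl n b) ↔ y ∈ pt (⟨i, fun j => if j ∈ s then a' j else a j⟩ : Bl n b)) := by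
  classical
  induction s using Finset.induction_on with
  | empty =>
    refine ⟨AlgEquiv.refl, ?_⟩
    intro x y h
    have h1 : c.r x = c.r y := h
    rw [← c.r_inj h1]
    simp only [Finset.notMem_empty, if_false]
  | insert j s hj ih =>
    obtain ⟨σ, hσ⟩ := ih
    set a1 : {j : Fin n // j ≠ i} → Fin b := fun j => if j ∈ s then a' j else a j with ha1
    set a2 : {j : Fin n // j ≠ i} → Fin b := fun k => if k ∈ insert j s then a' k else a k with ha2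
    have h12 : ∀ k, k ≠ j → a2 k = a1 k := by
      intro k hk
      simp only [ha1, ha2, Finset.mem_insert, hk, false_or]
    obtain ⟨τ, hτ1, hτ2⟩ := c.t2' j.1 (a1 j) (a2 j)
    refine ⟨σ.trans τ, ?_⟩
    intro x z hxz
    obtain ⟨y, hy, -⟩ := c.r_perm σ x
    rw [hσ x y hy]
    rw [AlgEquiv.trans_apply, hy] at hxz
    obtain ⟨k, u⟩ := y
    by_cases hk : k = j.1
    · subst hk
      have h2 : z.1 = j.1 := by
        obtain ⟨m, hm⟩ := c.r_perm τ (j.1, a1 j)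
        rw [hτ2] at hm
        have h3 := c.idx hxz
        rw [← c.inj (hm.2.symm.trans h3), ← c.r_inj hm.1]
      obtain ⟨z1, z2⟩ := z
      simp only at h2
      subst h2
      rw [mem_pt, mem_pt]
      constructor
      · rintro ⟨h4, h5⟩
        refine ⟨h4, ?_⟩
        simp only at h5 ⊢
        have h6 : a1 j = u := h5
        rw [← h6, hτ2] at hxz
        exact congrArg Prod.snd (c.r_inj hxz)
      · rintro ⟨h4, h5⟩
        refine ⟨h4, ?_⟩
        simp only at h5 ⊢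
        have h6 : a2 j = z2 := h5
        rw [← h6, ← hτ2] at hxz
        exact (congrArg Prod.snd (c.r_inj (τ.injective hxz))).symm
    · rw [hτ1 (k, u) hk] at hxz
      rw [← c.r_inj hxz, mem_pt, mem_pt]
      constructor
      · rintro ⟨h4, h5⟩
        exact ⟨h4, by rw [← h5]; exact h12 _ (fun h => hk (congrArg Subtype.val h))⟩
      · rintro ⟨h4, h5⟩
        exact ⟨h4, by rw [← h5]; exact (h12 _ (fun h => hk (congrArg Subtype.val h))).symm⟩

theorem tr (w w' : Bl n b) : ∃ σ : A ≃ₐ[ℚ] A, ∀ x y, σ (c.r x) = c.r y → (x ∈ pt w ↔ y ∈ pt w') := by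
  classical
  obtain ⟨σ, hσ⟩ := c.t1 w.1 w'.1
  obtain ⟨⟨i, a⟩, hi, h1⟩ := c.act σ w hσ
  obtain ⟨i', a'⟩ := w'
  simp only at hi hσ
  subst hi
  obtain ⟨τ, hτ⟩ := c.tr_step i a a' Finset.univ
  refine ⟨σ.trans τ, ?_⟩
  intro x z hxz
  obtain ⟨y, hy, -⟩ := c.r_perm σ x
  rw [h1 x y hy]
  rw [AlgEquiv.trans_apply, hy] at hxz
  rw [hτ y z hxz]
  simp only [Finset.mem_univ, if_true]

/-- the configuration -/
noncomputable def geo : Geo A (Pt n b) (Bl n b) where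
  r := c.r
  inj := c.r_inj
  int := c.r_int
  perm σ x := by
    obtain ⟨y, hy, -⟩ := c.r_perm σ x
    exact ⟨y, hy⟩
  pts := pt
  pts_inj := pt_inj
  act σ w := by
    obtain ⟨i, hi⟩ := c.perm σ w.1
    obtain ⟨w', -, h⟩ := c.act σ w hi
    exact ⟨w', h⟩
  tr := c.tr
  w0 := ⟨⟨0, by have := c.hn; omega⟩, fun _ => ⟨0, Nat.pos_of_ne_zero c.hb⟩⟩

theorem pm_idx (σ : A ≃ₐ[ℚ] A) (x : Pt n b) : σ (c.θ x.1) = c.θ (c.geo.pm σ x).1 := c.idx (c.geo.pm_spec σ x)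

/-- the missing index is equivariant -/
theorem am_idx (σ : A ≃ₐ[ℚ] A) (w : Bl n b) : σ (c.θ w.1) = c.θ (c.geo.am σ w).1 := by
  obtain ⟨i, hi⟩ := c.perm σ w.1
  obtain ⟨w', hw', h⟩ := c.act σ w hi
  have h1 : c.geo.am σ w = w' := c.geo.am_eq fun x => (h x _ (c.geo.pm_spec σ x)).symm
  rw [h1, hw', hi]

/-- the number of the blocks containing two points -/
def nb (x y : Pt n b) : ℕ := (Finset.univ.filter (fun w : Bl n b => x ∈ pt w ∧ y ∈ pt w)).card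

theorem nb_act (σ : A ≃ₐ[ℚ] A) (x y : Pt n b) : nb (c.geo.pm σ x) (c.geo.pm σ y) = nb x y := by
  unfold nb
  symm
  refine Finset.card_bij (fun w _ => c.geo.am σ w) ?_ ?_ ?_
  · intro w hw
    rw [Finset.mem_filter] at hw ⊢
    exact ⟨Finset.mem_univ _, (c.geo.mem_am σ w x).2 hw.2.1, (c.geo.mem_am σ w y).2 hw.2.2⟩
  · intro w _ w' _ h
    exact c.geo.am_inj σ h
  · intro w hw
    rw [Finset.mem_filter] at hw
    obtain ⟨w', rfl⟩ := (c.geo.am_bij σ).2 w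
    exact ⟨w', by rw [Finset.mem_filter]; exact ⟨Finset.mem_univ _, (c.geo.mem_am σ w' x).1 hw.2.1, (c.geo.mem_am σ w' y).1 hw.2.2⟩, rfl⟩

theorem tr_pt (x y : Pt n b) : ∃ σ : A ≃ₐ[ℚ] A, c.geo.pm σ x = y := by
  obtain ⟨σ, hσ⟩ := c.t1 x.1 y.1
  obtain ⟨⟨k, s⟩, hz, hz2⟩ := c.r_perm σ x
  have hk : k = y.1 := c.inj (hz2.symm.trans hσ)
  subst hk
  obtain ⟨τ, -, hτ⟩ := c.t2' y.1 s y.2
  refine ⟨σ.trans τ, ?_⟩
  apply c.geo.pm_eq
  show τ (σ (c.r x)) = c.r y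
  rw [hz, hτ]

include c in
theorem nb_self (x : Pt n b) : nb x x = (n - 1) * b ^ (n - 2) := by
  classical
  have hconst : ∀ y : Pt n b, nb y y = nb x x := by
    intro y
    obtain ⟨σ, hσ⟩ := c.tr_pt x y
    rw [← hσ, c.nb_act]
  have h1 : ∑ y : Pt n b, nb y y = Fintype.card (Bl n b) * (n - 1) := by
    have h2 : ∀ y : Pt n b, nb y y = ∑ w : Bl n b, if y ∈ pt w then 1 else 0 := by
      intro y
      unfold nb
      simp only [and_self]
      rw [Finset.card_filter]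
    rw [Finset.sum_congr rfl fun y _ => h2 y, Finset.sum_comm]
    have h3 : ∀ w : Bl n b, ∑ y : Pt n b, (if y ∈ pt w then 1 else 0) = n - 1 := by
      intro w
      rw [← Finset.card_filter]
      have : Finset.univ.filter (fun y => y ∈ pt w) = pt w := by ext y; simp
      rw [this, card_pt]
    rw [Finset.sum_congr rfl fun w _ => h3 w]
    simp
  rw [Finset.sum_congr rfl fun y _ => hconst y, card_Bl] at h1
  simp only [Finset.sum_const, Finset.card_univ, Fintype.card_prod, Fintype.card_fin, smul_eq_mul] at h1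
  have hn := c.hn
  have hb := Nat.pos_of_ne_zero c.hb
  have h2 : b ^ (n - 1) = b ^ (n - 2) * b := by
    rw [← pow_succ]
    congr 1
    omega
  rw [h2] at h1
  have h3 : 0 < n * b := Nat.mul_pos (by omega) hb
  apply Nat.eq_of_mul_eq_mul_left h3
  rw [h1]
  ring

theorem nb_zero {j : Fin n} {s t : Fin b} (h : s ≠ t) : nb (j, s) (j, t) = 0 := by
  unfold nb
  rw [Finset.card_eq_zero, Finset.filter_eq_empty_iff]
  intro w _ hw
  obtain ⟨h1, h2⟩ := (mem_pt _ _).1 hw.1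
  obtain ⟨h3, h4⟩ := (mem_pt _ _).1 hw.2
  exact h (h2.symm.trans h4)

include c in
theorem nb_swap {x : Pt n b} {j : Fin n} (hx : x.1 ≠ j) (s t : Fin b) : nb x (j, s) = nb x (j, t) := by
  obtain ⟨σ, h1, h2⟩ := c.t2' j s t
  have h3 : c.geo.pm σ x = x := c.geo.pm_eq (h1 x hx)
  have h4 : c.geo.pm σ (j, s) = (j, t) := c.geo.pm_eq h2
  have h5 := c.nb_act σ x (j, s)
  rw [h3, h4] at h5
  exact h5.symm

theorem nb_comm (x y : Pt n b) : nb x y = nb y x := by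
  unfold nb
  simp only [and_comm]

/-- the weights -/
def ep (j : Fin n) (s t : Fin b) (x : Pt n b) : ℤ := if x = (j, s) then 1 else if x = (j, t) then -1 else 0

theorem sum_ep {j : Fin n} {s t : Fin b} (hst : s ≠ t) (w : Bl n b) :
    ∑ x ∈ pt w, ep j s t x = (if (j, s) ∈ pt w then 1 else 0) - (if (j, t) ∈ pt w then 1 else 0) := by
  classical
  have h1 : ∀ x : Pt n b, ep j s t x = (if x = (j, s) then 1 else 0) - (if x = (j, t) then 1 else 0) := by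
    intro x
    unfold ep
    by_cases h1 : x = (j, s)
    · have h2 : x ≠ (j, t) := by
        rintro rfl
        exact hst (congrArg Prod.snd h1).symm
      simp [h1, hst]
    · by_cases h2 : x = (j, t)
      · simp [h2, hst.symm]
      · simp [h1, h2]
  rw [Finset.sum_congr rfl fun x _ => h1 x, Finset.sum_sub_distrib]
  congr 1
  · rw [Finset.sum_ite_eq' (pt w) (j, s) (fun _ => (1 : ℤ))]
  · rw [Finset.sum_ite_eq' (pt w) (j, t) (fun _ => (1 : ℤ))]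

include c in
theorem hTT {j : Fin n} {s t : Fin b} (hst : s ≠ t) (x : Pt n b) :
    ∑ w ∈ Finset.univ.filter (fun w => x ∈ pt w), ∑ y ∈ pt w, ep j s t y =
      ((n - 1) * b ^ (n - 2) : ℕ) * ep j s t x := by
  classical
  have h1 : ∀ y : Pt n b, ∑ w ∈ Finset.univ.filter (fun w : Bl n b => x ∈ pt w), (if y ∈ pt w then (1 : ℤ) else 0) =
      nb x y := by
    intro y
    unfold nb
    rw [Finset.sum_ite, Finset.sum_const_zero, add_zero, Finset.sum_const, Finset.filter_filter]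
    simp
  rw [Finset.sum_congr rfl fun w _ => sum_ep hst w, Finset.sum_sub_distrib, h1, h1]
  by_cases hx1 : x = (j, s)
  · subst hx1
    rw [c.nb_self, nb_zero hst]
    simp [ep]
  · by_cases hx2 : x = (j, t)
    · subst hx2
      rw [c.nb_self, nb_zero hst.symm]
      simp [ep, hst.symm]
    · have hep : ep j s t x = 0 := by simp [ep, hx1, hx2]
      rw [hep, mul_zero, sub_eq_zero]
      by_cases hj : x.1 = j
      · obtain ⟨x1, x2⟩ := x
        simp only at hj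
        subst hj
        rw [nb_zero (fun h => hx1 (by rw [h])), nb_zero (fun h => hx2 (by rw [h]))]
      · rw [c.nb_swap hj s t]

end Wr

end Pool.Agent.H450.GW
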