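import Pool.Agent.H450.GW.WGeo
import Pool.Agent.H450.GW.GRank

set_option autoImplicit false
set_option linter.unusedSectionVars false

namespace Pool.Agent.H450.GW

open NumberField Polynomial Pool.Agent.H450.GG
open scoped nonZeroDivisors

namespace Wr

variable {A : Type} [Field A] [CharZero A] [Algebra.IsAlgebraic ℚ A] [IsAlgClosed A]
variable {n b : ℕ} (c : Wr A n b)

/-- `∏ (z - x)` over the points of a block -/
noncomputable def e1 (z : ℤ) (w : Bl n b) : A := ∏ x ∈ pt w, ((z : A) - c.r x)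

theorem act_e1 (z : ℤ) (σ : A ≃ₐ[ℚ] A) (w : Bl n b) : σ (c.e1 z w) = c.e1 z (c.geo.am σ w) := by
  have h1 : pt (c.geo.am σ w) = (pt w).image (c.geo.pm σ) := c.geo.pts_am σ w
  unfold e1
  rw [map_prod, h1, Finset.prod_image (fun x _ y _ h => c.geo.pm_inj σ h)]
  refine Finset.prod_congr rfl fun x _ => ?_
  rw [map_sub, map_intCast]
  congr 1
  exact c.geo.pm_spec σ x

theorem e1_int (z : ℤ) (w : Bl n b) : IsIntegral ℤ (c.e1 z w) :=
  IsIntegral.prod _ fun x _ => IsIntegral.sub (by simpa using isIntegral_algebraMap (R := ℤ) (A := A) (x := z)) (c.r_int x)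

/-- `θ_i - e` for the missing index -/
noncomputable def e2 (e : ℤ) (w : Bl n b) : A := c.θ w.1 - e

theorem act_e2 (e : ℤ) (σ : A ≃ₐ[ℚ] A) (w : Bl n b) : σ (c.e2 e w) = c.e2 e (c.geo.am σ w) := by
  unfold e2
  rw [map_sub, map_intCast, c.am_idx]

theorem e2_int (e : ℤ) (w : Bl n b) : IsIntegral ℤ (c.e2 e w) :=
  IsIntegral.sub (c.int _) (by simpa using isIntegral_algebraMap (R := ℤ) (A := A) (x := e))

/-- the ideals `(q, ∏ (z - x), θ - e)` -/
noncomputable def idl (q : ℕ) (z e : ℤ) : Ideal (𝓞 c.geo.K) :=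
  Ideal.span {(q : 𝓞 c.geo.K), c.geo.io (c.geo.equi (c.act_e1 z)).1 (c.e1_int z _),
    c.geo.io (c.geo.equi (c.act_e2 e)).1 (c.e2_int e _)}

theorem idl_ne (q : ℕ) (hq : q ≠ 0) (z e : ℤ) : c.idl q z e ≠ 0 := by
  intro h
  have h1 : (q : 𝓞 c.geo.K) ∈ c.idl q z e := Ideal.subset_span (by simp)
  rw [h] at h1
  have h2 : (q : 𝓞 c.geo.K) = 0 := by simpa using h1
  exact hq (by exact_mod_cast h2)

noncomputable def idl' (q : ℕ) [Fact q.Prime] (z e : ℤ) : (Ideal (𝓞 c.geo.K))⁰ :=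
  ⟨c.idl q z e, mem_nonZeroDivisors_iff_ne_zero.2 (c.idl_ne q (Fact.out : q.Prime).ne_zero z e)⟩

theorem cont_idl (p q : ℕ) [Fact p.Prime] (z e : ℤ) (w : Bl n b) {t : ℝ}
    (h1 : W p (q : A) ≤ t) (h2 : W p (c.e1 z w) ≤ t) (h3 : W p (c.θ w.1 - e) ≤ t)
    (h4 : W p (q : A) = t ∨ W p (c.e1 z w) = t ∨ W p (c.θ w.1 - e) = t) :
    cont (c.geo.wv p w) (c.idl q z e) = t := by
  have e1' : c.geo.wv p w (c.geo.io (c.geo.equi (c.act_e1 z)).1 (c.e1_int z _)) = W p (c.e1 z w) := by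
    rw [c.geo.wv_io, (c.geo.equi (c.act_e1 z)).2 w]
  have e2' : c.geo.wv p w (c.geo.io (c.geo.equi (c.act_e2 e)).1 (c.e2_int e _)) = W p (c.θ w.1 - e) := by
    rw [c.geo.wv_io, (c.geo.equi (c.act_e2 e)).2 w]
    rfl
  unfold idl
  apply cont_span (c.geo.wv_na p w)
  · rintro x (rfl | rfl | hx)
    · rw [c.geo.wv_nat]; exact h1
    · rw [e1']; exact h2
    · rw [Set.mem_singleton_iff] at hx
      rw [hx, e2']; exact h3
  · rcases h4 with h4 | h4 | h4
    · exact ⟨(q : 𝓞 c.geo.K), by simp, by rw [c.geo.wv_nat]; exact h4⟩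
    · exact ⟨_, Set.mem_insert_of_mem _ (Set.mem_insert _ _), by rw [e1']; exact h4⟩
    · exact ⟨_, Set.mem_insert_of_mem _ (Set.mem_insert_of_mem _ (Set.mem_singleton _)), by rw [e2']; exact h4⟩

theorem W_e1 (p : ℕ) [Fact p.Prime] (z : ℤ) (w : Bl n b) : W p (c.e1 z w) = ∏ x ∈ pt w, W p (c.r x - z) := by
  unfold e1
  rw [W_prod]
  exact Finset.prod_congr rfl fun x _ => W_sub_comm p _ _

/-- other primes -/
theorem cont_other (p q : ℕ) [Fact p.Prime] (hq : q.Prime) (hpq : p ≠ q) (z e : ℤ) (w : Bl n b) :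
    cont (c.geo.wv p w) (c.idl q z e) = 1 := by
  have h1 : W p (q : A) = 1 := by
    have := W_int_eq (A := A) p (z := (q : ℤ)) (by
      intro h
      have h2 : p ∣ q := by exact_mod_cast h
      rcases (Nat.dvd_prime hq).1 h2 with h3 | h3
      · exact (Fact.out : p.Prime).one_lt.ne' h3
      · exact hpq h3)
    simpa using this
  exact c.cont_idl p q z e w h1.le (W_integral p (c.e1_int z w)) (W_integral p (c.e2_int e w)) (Or.inl h1)

/-- The prime `p` has type `A` with respect to the root number `a`. -/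
structure TA (c : Wr A n b) (M p : ℕ) [Fact p.Prime] (a : Fin n) (e : ℤ) : Prop where
  wa : W p (c.θ a - 1) = (p : ℝ)⁻¹
  w1 : ∀ i, i ≠ a → W p (c.θ i - 1) = 1
  we : ∀ i, i ≠ a → W p (c.θ i - e) ^ M = (p : ℝ)⁻¹
  pb : ¬ p ∣ b

variable {c}

/-- The point near an integer `z` with `z ^ b ≡ 1`. -/
theorem TA.near {M p : ℕ} [Fact p.Prime] {a : Fin n} {e : ℤ} (h : TA c M p a e) {f : ℤ[X]} (hf : Rts f c.θ)
    {z : ℤ} (hz : (p : ℤ) ∣ z ^ b - 1) :
    ∃ s : Fin b, W p (c.r (a, s) - z) ≤ (p : ℝ)⁻¹ ∧ (∀ x, x ≠ (a, s) → W p (c.r x - z) = 1) ∧ c.r (a, s) ∈ Q A p := by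
  have hlt := inv_p_lt p
  have hb := c.hb
  have hWa : W p (c.θ a) = 1 := by
    have h1 : c.θ a = 1 + (c.θ a - 1) := by ring
    rw [h1, W_one_add p (by rw [h.wa]; exact hlt)]
  have hWy : W p (c.y a) = 1 := by
    have h1 := hWa
    rw [← c.pow a, W_pow] at h1
    exact (pow_eq_one_iff_of_nonneg (W_nonneg p _) hb).1 h1
  have hyi : ∀ k, W p (c.y k) ≤ 1 := by
    intro k
    by_contra hcon
    push Not at hcon
    have h1 : 1 < W p (c.y k) ^ b := one_lt_pow₀ hcon hb
    rw [← W_pow, c.pow k] at h1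
    exact absurd h1 (not_lt.2 (W_integral p (c.int k)))
  have hz1 : W p ((z : A) ^ b - 1) ≤ (p : ℝ)⁻¹ := by
    have := W_int_lt (A := A) p hz
    push_cast at this
    exact this
  have hval : W p ((z : A) ^ b - c.y a ^ b) ≤ (p : ℝ)⁻¹ := by
    have h1 : (z : A) ^ b - c.y a ^ b = ((z : A) ^ b - 1) - (c.θ a - 1) := by
      rw [c.pow]
      ring
    rw [h1]
    exact (W_sub_le p _ _).trans (max_le hz1 h.wa.le)
  have hfar : ∀ j, j ≠ a → W p ((z : A) ^ b - c.y j ^ b) = 1 := by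
    intro j hj
    have h1 : (z : A) ^ b - c.y j ^ b = ((z : A) ^ b - 1) - (c.θ j - 1) := by
      rw [c.pow]
      ring
    rw [h1, W_sub_comm, sub_eq_add_neg, W_add_eq p, h.w1 j hj]
    rw [W_neg, h.w1 j hj]
    exact lt_of_le_of_lt hz1 hlt
  obtain ⟨s, hs⟩ := near_exists p c.hζ hb (lt_of_le_of_lt hval hlt)
  have hother : ∀ x, x ≠ (a, s) → W p (c.r x - z) = 1 := by
    rintro ⟨j, t⟩ hx
    unfold r
    by_cases hj : j = a
    · subst hj
      exact near_unique p c.hζ h.pb hWy hs (fun h' => hx (by rw [show t = s from h']))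
    · exact near_one p c.hζ hb (W_int_le p z) (hyi j) (hfar j hj) t
  refine ⟨s, ?_, hother, ?_⟩
  · unfold r
    rw [near_eq p c.hζ hb h.pb hWy hs]
    exact hval
  · have hg : expand ℤ b f ≠ 0 := by
      rw [Ne, expand_eq_zero (Nat.pos_of_ne_zero hb)]
      exact hf.monic.ne_zero
    apply mem_Q_of_unique' p hg ((root_expand c.hζ hb hf c.pow c.ne _).2 ⟨a, s, rfl⟩) z hs
    intro y' hy' hy'c
    obtain ⟨l, u, rfl⟩ := (root_expand c.hζ hb hf c.pow c.ne _).1 hy'
    by_cases hl : (l, u) = (a, s)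
    · rw [Prod.mk.injEq] at hl
      rw [hl.1, hl.2]
    · have h1 := hother (l, u) hl
      unfold r at h1
      rw [h1] at hy'c
      exact absurd hy'c (lt_irrefl _)

/-- The content of the ideal. -/
theorem TA.cont {M p : ℕ} [Fact p.Prime] {a : Fin n} {e : ℤ} (hM : M ≠ 0) (h : TA c M p a e) {z : ℤ} {s : Fin b}
    (hs : W p (c.r (a, s) - z) ≤ (p : ℝ)⁻¹) (ho : ∀ x, x ≠ (a, s) → W p (c.r x - z) = 1) (w : Bl n b) :
    cont (c.geo.wv p w) (c.idl p z e) = rho M p ^ (if (a, s) ∈ pt w then 1 else 0 : ℤ) := by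
  classical
  by_cases hw : (a, s) ∈ pt w
  · rw [if_pos hw, zpow_one]
    have ha : w.1 ≠ a := by
      obtain ⟨h1, -⟩ := (mem_pt _ _).1 hw
      exact fun h => h1 h.symm
    have h3 : W p (c.θ w.1 - e) = rho M p := by
      have h4 := h.we w.1 ha
      rw [← rho_pow hM p] at h4
      exact (pow_left_inj₀ (W_nonneg p _) (rho_pos M p).le hM).1 h4
    apply c.cont_idl p p z e w
    · rw [W_p]; exact le_rho hM p
    · rw [W_e1, ← Finset.mul_prod_erase _ _ hw, Finset.prod_eq_one, mul_one]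
      · exact hs.trans (le_rho hM p)
      · intro x hx
        exact ho x (Finset.ne_of_mem_erase hx)
    · exact h3.le
    · exact Or.inr (Or.inr h3)
  · rw [if_neg hw, zpow_zero]
    apply c.cont_idl p p z e w
    · rw [W_p]; exact (inv_p_lt p).le
    · exact W_integral p (c.e1_int z w)
    · exact W_integral p (c.e2_int e w)
    · right; left
      rw [W_e1]
      apply Finset.prod_eq_one
      intro x hx
      exact ho x (fun h => hw (h ▸ hx))

end Wr

/-- The rank of the class group. -/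
theorem wrank {A : Type} [Field A] [CharZero A] [Algebra.IsAlgebraic ℚ A] [IsAlgClosed A] {n b : ℕ} (c : Wr A n b)
    (hn : 3 ≤ n) (hb2 : 2 ≤ b) {μ N : ℕ} [NeZero μ] (hμ : μ ∣ n - 1) (hcop : Nat.Coprime b μ)
    {f : ℤ[X]} (hf : Rts f c.θ) (P : Fin N → ℕ) [hP : ∀ k, Fact (P k).Prime] (hinj : Function.Injective P)
    (a : Fin N → Fin n) (e : ℤ) (hA : ∀ k, Wr.TA c (n - 1) (P k) (a k) e) (hPb : ∀ k, b ∣ P k - 1) :
    ∃ F : Multiplicative (Fin (N - (n - 1) ^ (Fintype.card (Bl n b)) * (n - 1) ^ (Fintype.card (Bl n b) ^ 4)) → ZMod μ) →*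
      ClassGroup (𝓞 c.geo.K), Function.Injective F := by
  classical
  have hM : n - 1 ≠ 0 := by omega
  choose z hz using fun k => exists_order (P k) b (hPb k)
  choose s hs1 hs2 hs3 using fun k => (hA k).near hf (z := 1) (by simp)
  choose t ht1 ht2 ht3 using fun k => (hA k).near hf (z := z k) (order_dvd (hz k))
  choose u hu1 hu2 hu3 using fun k => (hA k).near hf (z := z k ^ 2) (by
    have h1 : (z k ^ 2) ^ b - 1 = (z k ^ b) ^ 2 - 1 ^ 2 := by ring
    rw [h1]
    exact (order_dvd (hz k)).trans (sub_dvd_pow_sub_pow _ _ _))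
  have hlt : ∀ k, ((P k : ℝ))⁻¹ < 1 := fun k => inv_p_lt (P k)
  have hne : ∀ k (z1 z2 : ℤ) (s1 s2 : Fin b), W (P k) (c.r (a k, s1) - z1) ≤ ((P k : ℝ))⁻¹ →
      W (P k) (c.r (a k, s2) - z2) ≤ ((P k : ℝ))⁻¹ → ¬ (P k : ℤ) ∣ z1 - z2 → s1 ≠ s2 := by
    intro k z1 z2 s1 s2 h1 h2 h3 h4
    subst h4
    have h5 := W_int_eq (A := A) (P k) h3
    have h6 : ((z1 - z2 : ℤ) : A) = (c.r (a k, s1) - z2) - (c.r (a k, s1) - z1) := by push_cast; ring
    rw [h6] at h5
    have h7 := W_sub_le (P k) (c.r (a k, s1) - z2) (c.r (a k, s1) - z1)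
    rw [h5] at h7
    exact absurd (lt_of_le_of_lt (h7.trans (max_le h2 h1)) (hlt k)) (lt_irrefl _)
  have hst : ∀ k, s k ≠ t k := fun k => hne k 1 (z k) _ _ (hs1 k) (ht1 k) (by
    have := order_ne (hz k) (k := 0) (l := 1) (by omega) (by omega) (by norm_num)
    simpa using this)
  -- the third point
  let x2 : Fin N → Fin b := fun k => if 3 ≤ b then u k else t k
  have hx2s : ∀ k, s k ≠ x2 k := by
    intro k
    simp only [x2]
    split_ifs with h3
    · exact hne k 1 (z k ^ 2) _ _ (hs1 k) (by have := hu1 k; push_cast at this ⊢; exact this) (by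
        have := order_ne (hz k) (k := 0) (l := 2) (by omega) (by omega) (by norm_num)
        simpa using this)
    · exact hst k
  have hx2Q : ∀ k, c.r (a k, x2 k) ∈ Q A (P k) := by
    intro k
    simp only [x2]
    split_ifs with h3
    · exact hu3 k
    · exact ht3 k
  -- the two blocks
  obtain ⟨i, hi⟩ : ∃ i : Fin N → Fin n, ∀ k, i k ≠ a k := by
    refine ⟨fun k => if a k = ⟨0, by omega⟩ then ⟨1, by omega⟩ else ⟨0, by omega⟩, ?_⟩
    intro k
    simp only
    split_ifs with h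
    · rw [h]
      intro h'
      simpa using congrArg Fin.val h'
    · exact fun h' => h h'.symm
  let wk : Fin N → Fin b → Bl n b := fun k v => ⟨i k, fun j => if j.1 = a k then v else ⟨0, by omega⟩⟩
  have hwk : ∀ k v x, x ∈ pt (wk k v) ↔ (x.1 ≠ i k ∧ ((x.1 = a k ∧ x.2 = v) ∨ (x.1 ≠ a k ∧ x.2 = ⟨0, by omega⟩))) := by
    intro k v x
    rw [mem_pt]
    simp only [wk]
    constructor
    · rintro ⟨h1, h2⟩
      refine ⟨h1, ?_⟩
      by_cases h3 : x.1 = a k
      · rw [if_pos h3] at h2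
        exact Or.inl ⟨h3, h2.symm⟩
      · rw [if_neg h3] at h2
        exact Or.inr ⟨h3, h2.symm⟩
    · rintro ⟨h1, h2⟩
      refine ⟨h1, ?_⟩
      rcases h2 with ⟨h3, h4⟩ | ⟨h3, h4⟩
      · rw [if_pos h3, h4]
      · rw [if_neg h3, h4]
  have hrank := Geo.rank (g := c.geo) (M := n - 1) (P := P) (ep := fun k => Wr.ep (a k) (s k) (t k))
    (c := (n - 1) * b ^ (n - 2)) (fun k x => c.hTT (hst k) x) (μ := μ) hM (dvd_mul_right _ _) hinj
    (fun k => c.idl' (P k) 1 e) (fun k => c.idl' (P k) (z k) e)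
    (by
      intro k w
      have h1 := (hA k).cont hM (hs1 k) (hs2 k) w
      have h2 := (hA k).cont hM (ht1 k) (ht2 k) w
      show cont (c.geo.wv (P k) w) (c.idl (P k) 1 e) / cont (c.geo.wv (P k) w) (c.idl (P k) (z k) e) = _
      rw [h1, h2, ← zpow_sub₀ (rho_pos (n - 1) (P k)).ne']
      congr 1
      exact (Wr.sum_ep (hst k) w).symm)
    (by
      intro k p _ hp w
      show cont (c.geo.wv p w) (c.idl (P k) 1 e) / cont (c.geo.wv p w) (c.idl (P k) (z k) e) = _
      rw [c.cont_other p (P k) (hP k).out hp.symm, c.cont_other p (P k) (hP k).out hp.symm, div_one])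
    (fun k => (a k, s k)) (fun k => (a k, x2 k)) (fun k => wk k (s k)) (fun k => wk k (x2 k)) hs3 hx2Q
    (by
      intro k x
      have e1 : x ∈ c.geo.pts (wk k (s k)) ↔ _ := hwk k (s k) x
      have e2 : x ∈ c.geo.pts (wk k (x2 k)) ↔ _ := hwk k (x2 k) x
      rw [if_congr e1 rfl rfl, if_congr e2 rfl rfl]
      have e3 : ∀ v : Fin b, (x = (a k, v)) ↔ (x.1 = a k ∧ x.2 = v) := fun v => Prod.ext_iff
      rw [if_congr (e3 _) rfl rfl, if_congr (e3 _) rfl rfl]
      by_cases h1 : x.1 = a k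
      · simp only [h1, ne_eq, not_true_eq_false, false_and, or_false, true_and]
        have h2' : a k ≠ i k := fun h => hi k h.symm
        simp only [h2', not_false_eq_true, true_and]
        ring
      · simp only [h1, false_and, false_or, if_false])
    (by
      intro k τ hτ
      have hdiv : (n - 1) * b ^ (n - 2) / (n - 1) = b ^ (n - 2) := Nat.mul_div_cancel_left _ (Nat.pos_of_ne_zero hM)
      have hμM : (μ : ℤ) ∣ ((n - 1 : ℕ) : ℤ) := by exact_mod_cast hμ
      have h1 := hμM.trans hτ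
      rw [hdiv] at h1
      have hcopz : IsCoprime (μ : ℤ) ((b ^ (n - 2) : ℕ) : ℤ) := by
        rw [Nat.isCoprime_iff_coprime]
        exact (Nat.Coprime.pow_left _ hcop).symm
      have hep1 : Wr.ep (a k) (s k) (t k) (a k, s k) = 1 := by simp [Wr.ep]
      by_cases h3 : 3 ≤ b
      · have hx2t : t k ≠ x2 k := by
          simp only [x2]
          rw [if_pos h3]
          exact hne k (z k) (z k ^ 2) _ _ (ht1 k) (by have := hu1 k; push_cast at this ⊢; exact this) (by
            have := order_ne (hz k) (k := 1) (l := 2) (by omega) (by omega) (by norm_num)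
            simpa using this)
        have hep2 : Wr.ep (a k) (s k) (t k) (a k, x2 k) = 0 := by simp [Wr.ep, (hx2s k).symm, hx2t.symm]
        rw [hep1, hep2, sub_zero, mul_one] at h1
        exact hcopz.dvd_of_dvd_mul_left h1
      · have hb : b = 2 := by omega
        have hx2t : x2 k = t k := by
          simp only [x2]
          rw [if_neg h3]
        have hep2 : Wr.ep (a k) (s k) (t k) (a k, x2 k) = -1 := by simp [Wr.ep, hx2t, (hst k).symm]
        rw [hep1, hep2, mul_assoc] at h1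
        have h4 := hcopz.dvd_of_dvd_mul_left h1
        have h5 : IsCoprime (μ : ℤ) 2 := by
          have : IsCoprime ((μ : ℕ) : ℤ) ((2 : ℕ) : ℤ) := by
            rw [Nat.isCoprime_iff_coprime]
            rw [hb] at hcop
            exact hcop.symm
          exact_mod_cast this
        have h6 : (1 - (-1) : ℤ) = 2 := by norm_num
        rw [h6] at h4
        exact h5.dvd_of_dvd_mul_left h4)
  exact hrank

end Pool.Agent.H450.GW
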