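import Pool.Agent.H450.GG.Trans

set_option autoImplicit false
set_option linter.unusedSectionVars false

namespace Pool.Agent.H450.GW

open Polynomial Pool.Agent.H450.GG

/-- an integer of order `b` modulo `p` -/
theorem exists_order (p b : ℕ) [Fact p.Prime] (h : b ∣ p - 1) :
    ∃ z : ℤ, orderOf (z : ZMod p) = b := by
  obtain ⟨g, hg⟩ := IsCyclic.exists_ofOrder_eq_natCard (α := (ZMod p)ˣ)
  rw [Nat.card_eq_fintype_card, ZMod.card_units] at hg
  obtain ⟨k, hk⟩ := h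
  have hp1 : p - 1 ≠ 0 := by
    have := (Fact.out : p.Prime).one_lt
    omega
  have hk0 : k ≠ 0 := by
    rintro rfl
    rw [mul_zero] at hk
    exact hp1 hk
  have h1 : orderOf (g ^ k) = b := by
    rw [orderOf_pow, hg, hk, Nat.gcd_mul_left_left, Nat.mul_div_cancel _ (Nat.pos_of_ne_zero hk0)]
  refine ⟨((g ^ k : (ZMod p)ˣ) : ZMod p).val, ?_⟩
  rw [← h1, ← orderOf_units]
  simp

theorem order_dvd {p b : ℕ} [Fact p.Prime] {z : ℤ} (hz : orderOf (z : ZMod p) = b) : (p : ℤ) ∣ z ^ b - 1 := by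
  rw [← ZMod.intCast_zmod_eq_zero_iff_dvd]
  push_cast
  rw [← hz, pow_orderOf_eq_one, sub_self]

theorem order_ne {p b : ℕ} [Fact p.Prime] {z : ℤ} (hz : orderOf (z : ZMod p) = b) {k l : ℕ} (hk : k < b)
    (hl : l < b) (hkl : k ≠ l) : ¬ (p : ℤ) ∣ z ^ k - z ^ l := by
  rw [← ZMod.intCast_zmod_eq_zero_iff_dvd]
  push_cast
  rw [sub_eq_zero]
  intro h
  rw [← hz] at hk hl
  exact hkl (pow_injOn_Iio_orderOf hk hl h)

theorem order_not {p b : ℕ} [Fact p.Prime] {z : ℤ} (hz : orderOf (z : ZMod p) = b) (hb : b ≠ 0) : ¬ (p : ℤ) ∣ z := by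
  rw [← ZMod.intCast_zmod_eq_zero_iff_dvd]
  intro h
  rw [h] at hz
  rcases Nat.eq_zero_or_pos (orderOf (0 : ZMod p)) with h1 | h1
  · rw [hz] at h1
    exact hb h1
  · have h2 := pow_orderOf_eq_one (0 : ZMod p)
    rw [zero_pow h1.ne'] at h2
    exact zero_ne_one h2

section
variable {A : Type} [Field A] [CharZero A] [Algebra.IsAlgebraic ℚ A] [IsAlgClosed A]
variable (p : ℕ) [Fact p.Prime]

/-- A root of an integral polynomial which is alone in its residue class is in `ℚ_p`. -/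
theorem mem_Q_of_unique' {g : ℤ[X]} (hg : g ≠ 0) {x : A} (hx : aeval x g = 0) (c : ℤ) (hc : W p (x - c) < 1)
    (hu : ∀ y : A, aeval y g = 0 → W p (y - c) < 1 → y = x) : x ∈ Q A p := by
  rw [mem_Q]
  have h1 : psi p x ∈ (⊥ : IntermediateField ℚ_[p] (PadicAlgCl p)) := by
    rw [InfiniteGalois.mem_bot_iff_fixed]
    intro τ
    have hg0 : g.map (algebraMap ℤ A) ≠ 0 :=
      (Polynomial.map_ne_zero_iff (FaithfulSMul.algebraMap_injective ℤ A)).2 hg
    have h2 : ∃ y : A, aeval y g = 0 ∧ τ (psi p x) = psi p y := by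
      have h3 : Polynomial.aeval (τ (psi p x)) g = 0 := by
        have h4 : Polynomial.aeval (τ (psi p x)) g =
            ((τ : PadicAlgCl p →+* PadicAlgCl p).comp (psi (A := A) p : A →+* PadicAlgCl p)) (Polynomial.aeval x g) := by
          rw [Polynomial.aeval_def, Polynomial.aeval_def, Polynomial.hom_eval₂]
          congr 1
          exact RingHom.ext_int _ _
        rw [h4, hx, map_zero]
      have h6 : τ (psi p x) ∈ ((g.map (algebraMap ℤ A)).map (psi (A := A) p : A →+* PadicAlgCl p)).roots := by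
        rw [mem_roots (Polynomial.map_ne_zero hg0), IsRoot, Polynomial.map_map, ← h3, Polynomial.eval_map,
          Polynomial.aeval_def]
        congr 1
        exact RingHom.ext_int _ _
      rw [(IsAlgClosed.splits (g.map (algebraMap ℤ A))).roots_map, Multiset.mem_map] at h6
      obtain ⟨y, hy, hy2⟩ := h6
      rw [mem_roots hg0, IsRoot, Polynomial.eval_map_algebraMap] at hy
      exact ⟨y, hy, hy2.symm⟩
    obtain ⟨y, hy, hyτ⟩ := h2
    have h3 : W p (y - c) = W p (x - c) := by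
      unfold W
      have h4 : psi p (y - c) = τ (psi p (x - c)) := by
        rw [map_sub, map_sub, map_sub, ← hyτ]
        simp
      rw [h4]
      exact (spectralNorm_eq_of_equiv τ _).symm
    rw [hyτ, hu y hy (by rw [h3]; exact hc)]
  rw [IntermediateField.mem_bot] at h1
  exact h1

variable {b : ℕ} {ζ : A}

theorem prod_zeta (hζ : IsPrimitiveRoot ζ b) (hb : b ≠ 0) (x y : A) :
    ∏ s : Fin b, (x - ζ ^ (s : ℕ) * y) = x ^ b - y ^ b := by
  classical
  have : NeZero b := ⟨hb⟩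
  rw [hζ.pow_sub_pow_eq_prod_sub_mul x y (Nat.pos_of_ne_zero hb)]
  refine Finset.prod_bij (fun s _ => ζ ^ (s : ℕ)) ?_ ?_ ?_ ?_
  · intro s _
    rw [mem_nthRootsFinset (Nat.pos_of_ne_zero hb), ← pow_mul, mul_comm, pow_mul, hζ.pow_eq_one, one_pow]
  · intro s _ t _ h
    exact Fin.ext (hζ.pow_inj s.2 t.2 h)
  · intro ξ hξ
    rw [mem_nthRootsFinset (Nat.pos_of_ne_zero hb)] at hξ
    obtain ⟨i, hi, h⟩ := hζ.eq_pow_of_pow_eq_one hξ
    exact ⟨⟨i, hi⟩, Finset.mem_univ _, h⟩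
  · intro s _
    rfl

theorem W_pow_eq_one {x : A} {k : ℕ} (hk : k ≠ 0) (h : x ^ k = 1) : W p x = 1 := by
  have h1 := congrArg (W p) h
  rw [W_pow, W_one] at h1
  exact (pow_eq_one_iff_of_nonneg (W_nonneg p x) hk).1 h1

theorem W_zeta (hζ : IsPrimitiveRoot ζ b) (hb : b ≠ 0) (k : ℕ) : W p (ζ ^ k) = 1 := by
  rw [W_pow, W_pow_eq_one p hb hζ.pow_eq_one, one_pow]

theorem W_zeta_sub (hζ : IsPrimitiveRoot ζ b) (hpb : ¬ p ∣ b) {s t : Fin b} (h : s ≠ t) :
    W p (ζ ^ (s : ℕ) - ζ ^ (t : ℕ)) = 1 := by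
  have key : ∀ i j : ℕ, i < j → j < b → W p (ζ ^ i - ζ ^ j) = 1 := by
    clear h s t
    intro i j hst ht
    obtain ⟨n, rfl⟩ : ∃ n, b = n + 1 := ⟨b - 1, by omega⟩
    have h1 := hζ.prod_one_sub_pow_eq_order
    have h2 := congrArg (W p) h1
    rw [W_prod] at h2
    have h3 : W p ((n : A) + 1) = 1 := by
      have := W_int_eq (A := A) p (z := ((n + 1 : ℕ) : ℤ)) (by
        intro hd
        exact hpb (by exact_mod_cast hd))
      push_cast at this
      exact this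
    rw [h3] at h2
    have h4 := prod_eq_one (Finset.range n) (fun k => W p (1 - ζ ^ (k + 1))) (fun k _ => W_nonneg p _)
      (fun k _ => (W_sub_le p _ _).trans (max_le (by rw [W_one]) (by rw [W_zeta p hζ (by omega)]))) h2 (j - i - 1)
      (Finset.mem_range.2 (by omega))
    have h5 : j - i - 1 + 1 = j - i := by omega
    simp only [h5] at h4
    have h6 : ζ ^ i - ζ ^ j = ζ ^ i * (1 - ζ ^ (j - i)) := by
      rw [mul_sub, mul_one, ← pow_add]
      congr 2
      omega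
    rw [h6, W_mul, W_zeta p hζ (by omega), h4, one_mul]
  have hne : (s : ℕ) ≠ (t : ℕ) := fun h' => h (Fin.ext h')
  rcases Nat.lt_or_gt_of_ne hne with h1 | h1
  · exact key _ _ h1 t.2
  · rw [W_sub_comm]
    exact key _ _ h1 s.2

variable {y c : A}

theorem near_exists (hζ : IsPrimitiveRoot ζ b) (hb : b ≠ 0) (h : W p (c ^ b - y ^ b) < 1) :
    ∃ s : Fin b, W p (ζ ^ (s : ℕ) * y - c) < 1 := by
  by_contra hcon
  push Not at hcon
  rw [← prod_zeta hζ hb, W_prod] at h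
  refine absurd h (not_lt.2 ?_)
  calc (1 : ℝ) = ∏ s : Fin b, (1 : ℝ) := by simp
    _ ≤ _ := Finset.prod_le_prod (fun _ _ => zero_le_one) (fun s _ => by rw [W_sub_comm]; exact hcon s)

theorem near_one (hζ : IsPrimitiveRoot ζ b) (hb : b ≠ 0) (hc : W p c ≤ 1) (hy : W p y ≤ 1)
    (h : W p (c ^ b - y ^ b) = 1) (s : Fin b) : W p (ζ ^ (s : ℕ) * y - c) = 1 := by
  rw [← prod_zeta hζ hb, W_prod] at h
  rw [W_sub_comm]
  refine prod_eq_one Finset.univ (fun s : Fin b => W p (c - ζ ^ (s : ℕ) * y)) (fun s _ => W_nonneg p _) ?_ h s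
    (Finset.mem_univ s)
  intro s _
  refine (W_sub_le p _ _).trans (max_le hc ?_)
  rw [W_mul, W_zeta p hζ hb, one_mul]
  exact hy

theorem near_unique (hζ : IsPrimitiveRoot ζ b) (hpb : ¬ p ∣ b) (hy : W p y = 1) {s t : Fin b}
    (h : W p (ζ ^ (s : ℕ) * y - c) < 1) (hne : t ≠ s) : W p (ζ ^ (t : ℕ) * y - c) = 1 := by
  have h1 : W p (ζ ^ (t : ℕ) * y - ζ ^ (s : ℕ) * y) = 1 := by
    rw [← sub_mul, W_mul, hy, mul_one, W_zeta_sub p hζ hpb hne]
  have h2 : ζ ^ (t : ℕ) * y - c = (ζ ^ (t : ℕ) * y - ζ ^ (s : ℕ) * y) + (ζ ^ (s : ℕ) * y - c) := by ring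
  rw [h2, W_add_eq p (by rw [h1]; exact h), h1]

theorem near_eq (hζ : IsPrimitiveRoot ζ b) (hb : b ≠ 0) (hpb : ¬ p ∣ b) (hy : W p y = 1) {s : Fin b}
    (h : W p (ζ ^ (s : ℕ) * y - c) < 1) : W p (ζ ^ (s : ℕ) * y - c) = W p (c ^ b - y ^ b) := by
  classical
  rw [← prod_zeta hζ hb, W_prod, ← Finset.mul_prod_erase _ _ (Finset.mem_univ s), W_sub_comm p c,
    Finset.prod_eq_one, mul_one]
  intro t ht
  rw [W_sub_comm]
  exact near_unique p hζ hpb hy h (Finset.ne_of_mem_erase ht)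

end

section
variable {A : Type} [Field A] [CharZero A] [Algebra.IsAlgebraic ℚ A] [IsAlgClosed A]
variable (p : ℕ) [Fact p.Prime]

/-- Type D: `f ≡ ∏ (X - u j)`. -/
theorem type_D' {n : ℕ} {f h' : ℤ[X]} {θ : Fin n → A} (h : Rts f θ) (u : Fin n → ℤ)
    (hu : ∀ j k, j ≠ k → ¬ (p : ℤ) ∣ u j - u k)
    (hf : f = ∏ j : Fin n, (X - C (u j)) + C (p : ℤ) + C ((p : ℤ) ^ 2) * h') :
    Function.Injective θ ∧ ∃ a : Fin n → Fin n, Function.Surjective a ∧
      ∀ j, W p (θ (a j) - u j) = (p : ℝ)⁻¹ ∧ ∀ k, k ≠ a j → W p (θ k - u j) = 1 := by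
  have hG : ∀ x : A, Polynomial.aeval x (∏ j : Fin n, (X - C (u j)) : ℤ[X]) = ∏ j : Fin n, (x - (u j : A)) := by
    intro x
    simp
  have hroot : ∀ i, ∏ j : Fin n, W p (θ i - (u j : A)) = (p : ℝ)⁻¹ := by
    intro i
    have h1 := (local_eq p hf (W_integral p (h.integral i))).1 (h.root i)
    rw [hG, W_prod] at h1
    exact h1
  have hsc : ∀ j : Fin n, ∃ a, W p (θ a - (u j : A)) = (p : ℝ)⁻¹ ∧ ∀ k, k ≠ a → W p (θ k - (u j : A)) = 1 := by
    intro j
    obtain ⟨a, h1, h2, -⟩ := simple_class p h (u j) (by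
      intro i hi
      have h1 := hroot i
      rw [← Finset.mul_prod_erase Finset.univ _ (Finset.mem_univ j)] at h1
      rw [Finset.prod_eq_one, mul_one] at h1
      · exact h1
      · intro k hk
        exact W_int_sub p hi (hu j k (Finset.ne_of_mem_erase hk).symm)) ((local_eq p hf (W_int_le p _)).2 (by
        rw [hG]
        exact Finset.prod_eq_zero (Finset.mem_univ j) (sub_self _)))
    exact ⟨a, h1, h2⟩
  choose a ha1 ha2 using hsc
  have hlt := inv_p_lt p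
  have hja : ∀ j k, θ (a j) = θ (a k) → j = k := by
    intro j k hjk
    by_contra hne
    have h1 := W_int_sub p (by rw [ha1 j]; exact hlt) (hu j k hne)
    rw [hjk, ha1 k] at h1
    linarith
  have hainj : Function.Injective a := fun j k hjk => hja j k (by rw [hjk])
  have hasurj : Function.Surjective a := Finite.surjective_of_injective hainj
  constructor
  · intro x y hxy
    obtain ⟨j, rfl⟩ := hasurj x
    obtain ⟨k, rfl⟩ := hasurj y
    rw [hja j k hxy]
  · exact ⟨a, hasurj, fun j => ⟨ha1 j, ha2 j⟩⟩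

/-- the polynomial whose roots are the `b`-th roots of the roots of `f` -/
theorem root_expand {n b : ℕ} {f : ℤ[X]} {θ y : Fin n → A} {ζ : A} (hζ : IsPrimitiveRoot ζ b) (hb : b ≠ 0)
    (h : Rts f θ) (hy : ∀ j, y j ^ b = θ j) (h0 : ∀ j, θ j ≠ 0) (x : A) :
    aeval x (expand ℤ b f) = 0 ↔ ∃ (j : Fin n) (s : Fin b), x = ζ ^ (s : ℕ) * y j := by
  rw [expand_aeval]
  constructor
  · intro hx
    obtain ⟨j, hj⟩ := h.mem hx
    have hyj : y j ≠ 0 := by
      intro h1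
      have h2 := hy j
      rw [h1, zero_pow hb] at h2
      exact h0 j h2.symm
    have : NeZero b := ⟨hb⟩
    obtain ⟨i, hi, h2⟩ := hζ.eq_pow_of_pow_eq_one (ξ := x / y j) (by rw [div_pow, hj, hy, div_self (h0 j)])
    exact ⟨j, ⟨i, hi⟩, by simp only; rw [h2, div_mul_cancel₀ _ hyj]⟩
  · rintro ⟨j, s, rfl⟩
    rw [mul_pow, ← pow_mul, mul_comm (s : ℕ), pow_mul, hζ.pow_eq_one, one_pow, one_mul, hy]
    exact h.root j

/-- Type A: `f ≡ (X - 1) (X - e) ^ M`. -/
theorem type_A' {M n : ℕ} {f h' : ℤ[X]} {θ : Fin n → A} (h : Rts f θ) (e : ℤ) (he : ¬ (p : ℤ) ∣ 1 - e)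
    (hf : f = (X - C 1) * (X - C e) ^ M + C (p : ℤ) + C ((p : ℤ) ^ 2) * h') :
    ∃ a, W p (θ a - 1) = (p : ℝ)⁻¹ ∧
      ∀ i, i ≠ a → W p (θ i - 1) = 1 ∧ W p (θ i - e) ^ M = (p : ℝ)⁻¹ := by
  have hG : ∀ x : A, Polynomial.aeval x ((X - C 1) * (X - C e) ^ M : ℤ[X]) = (x - 1) * (x - (e : A)) ^ M := by
    intro x
    simp
  have hroot : ∀ i, W p (θ i - 1) * W p (θ i - (e : A)) ^ M = (p : ℝ)⁻¹ := by
    intro i
    have h1 := (local_eq p hf (W_integral p (h.integral i))).1 (h.root i)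
    rw [hG, W_mul, W_pow] at h1
    exact h1
  obtain ⟨a, ha1, ha2, -⟩ := simple_class p h 1 (by
    intro i hi
    have h1 := hroot i
    have h2 : W p (θ i - (e : A)) = 1 := W_int_sub p hi he
    rw [h2, one_pow, mul_one] at h1
    simpa using h1) ((local_eq p hf (W_int_le p 1)).2 (by rw [hG]; simp))
  refine ⟨a, by simpa using ha1, ?_⟩
  intro i hi
  have h1 := hroot i
  have h2 : W p (θ i - 1) = 1 := by simpa using ha2 i hi
  refine ⟨h2, ?_⟩
  rw [h2, one_mul] at h1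
  exact h1

/-- the automorphisms moving the `b`-th roots of one root -/
theorem t2_of_D {n b : ℕ} (hn : 0 < n) {f h' : ℤ[X]} {θ y : Fin n → A} {ζ : A} (hζ : IsPrimitiveRoot ζ b) (hb : b ≠ 0)
    (h : Rts f θ) (hy : ∀ j, y j ^ b = θ j) (hpb : ¬ p ∣ b) (hp1 : b ∣ p - 1)
    (hu : ∀ j k : Fin n, j ≠ k → ¬ (p : ℤ) ∣ ((j : ℕ) : ℤ) ^ b - ((k : ℕ) : ℤ) ^ b)
    (hf : f = ∏ j : Fin n, (X - C (((j : ℕ) : ℤ) ^ b)) + C (p : ℤ) + C ((p : ℤ) ^ 2) * h') :
    Function.Injective θ ∧ (∀ j, θ j ≠ 0) ∧ ∃ j0 : Fin n, ∀ s t : Fin b, ∃ σ : A ≃ₐ[ℚ] A,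
      (∀ j, j ≠ j0 → ∀ u : Fin b, σ (ζ ^ (u : ℕ) * y j) = ζ ^ (u : ℕ) * y j) ∧
        σ (ζ ^ (s : ℕ) * y j0) = ζ ^ (t : ℕ) * y j0 := by
  classical
  obtain ⟨hinj, a, hasurj, ha⟩ := type_D' p h (fun j : Fin n => ((j : ℕ) : ℤ) ^ b) hu hf
  have hlt := inv_p_lt p
  have hpos := inv_p_pos p
  set z0 : Fin n := ⟨0, hn⟩ with hz0
  -- the values of the roots
  have hW0 : W p (θ (a z0)) = (p : ℝ)⁻¹ := by
    have h1 := (ha z0).1
    simpa [hz0, hb] using h1
  have hW1 : ∀ k, k ≠ a z0 → W p (θ k) = 1 := by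
    intro k hk
    have h1 := (ha z0).2 k hk
    simpa [hz0, hb] using h1
  have h0 : ∀ j, θ j ≠ 0 := by
    intro j hj
    by_cases hja : j = a z0
    · rw [← hja, hj, W_zero] at hW0
      exact hpos.ne hW0
    · have h1 := hW1 j hja
      rw [hj, W_zero] at h1
      exact zero_ne_one h1
  have hWy : ∀ k, k ≠ a z0 → W p (y k) = 1 := by
    intro k hk
    have h1 := hW1 k hk
    rw [← hy k, W_pow] at h1
    exact (pow_eq_one_iff_of_nonneg (W_nonneg p _) hb).1 h1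
  have hyi : ∀ k, W p (y k) ≤ 1 := by
    intro k
    by_contra hcon
    push Not at hcon
    have h1 : 1 < W p (y k) ^ b := one_lt_pow₀ hcon hb
    rw [← W_pow, hy k] at h1
    exact absurd h1 (not_lt.2 (W_integral p (h.integral k)))
  obtain ⟨z, hz⟩ := exists_order p b hp1
  -- the `b`-th roots of the other roots are in `ℚ_p`
  have hQ : ∀ k, k ≠ a z0 → ∀ s : Fin b, ζ ^ (s : ℕ) * y k ∈ Q A p := by
    intro k hk
    obtain ⟨t, rfl⟩ := hasurj k
    have ht0 : t ≠ z0 := fun h => hk (by rw [h])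
    have htu : ¬ (p : ℤ) ∣ ((t : ℕ) : ℤ) := by
      intro hd
      apply hu t z0 ht0
      have : (((z0 : Fin n) : ℕ) : ℤ) = 0 := by simp [hz0]
      rw [this, zero_pow hb, sub_zero]
      exact dvd_pow hd hb
    obtain ⟨ht1, ht2⟩ := ha t
    let cm : Fin b → ℤ := fun m => ((t : ℕ) : ℤ) * z ^ (m : ℕ)
    have hcm : ∀ m, (p : ℤ) ∣ (cm m) ^ b - ((t : ℕ) : ℤ) ^ b := by
      intro m
      have h1 : (cm m) ^ b - ((t : ℕ) : ℤ) ^ b = ((t : ℕ) : ℤ) ^ b * ((z ^ b) ^ (m : ℕ) - 1 ^ (m : ℕ)) := by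
        simp only [cm]
        rw [mul_pow, ← pow_mul, mul_comm (m : ℕ), pow_mul, one_pow]
        ring
      rw [h1]
      exact ((order_dvd hz).trans (sub_dvd_pow_sub_pow _ _ _)).mul_left _
    have hcmW : ∀ m, W p (((cm m : ℤ) : A) ^ b - (((t : ℕ) : ℤ) : A) ^ b) < 1 := by
      intro m
      have h1 := W_int_lt (A := A) p (hcm m)
      push_cast at h1 ⊢
      exact lt_of_le_of_lt h1 hlt
    have hthis : W p (θ (a t) - (((t : ℕ) : ℤ) : A) ^ b) < 1 := by
      have := ht1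
      push_cast at this ⊢
      rw [this]
      exact hlt
    have hnear : ∀ m, W p (((cm m : ℤ) : A) ^ b - y (a t) ^ b) < 1 := by
      intro m
      have h1 : ((cm m : ℤ) : A) ^ b - y (a t) ^ b = (((cm m : ℤ) : A) ^ b - (((t : ℕ) : ℤ) : A) ^ b) -
          (θ (a t) - (((t : ℕ) : ℤ) : A) ^ b) := by
        rw [hy]
        ring
      rw [h1]
      exact lt_of_le_of_lt (W_sub_le p _ _) (max_lt (hcmW m) hthis)
    have hfar : ∀ m l, l ≠ a t → W p (((cm m : ℤ) : A) ^ b - y l ^ b) = 1 := by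
      intro m l hl
      have h1 : ((cm m : ℤ) : A) ^ b - y l ^ b = (((cm m : ℤ) : A) ^ b - (((t : ℕ) : ℤ) : A) ^ b) -
          (θ l - (((t : ℕ) : ℤ) : A) ^ b) := by
        rw [hy]
        ring
      have h2 : W p (θ l - (((t : ℕ) : ℤ) : A) ^ b) = 1 := by
        have := ht2 l hl
        push_cast at this ⊢
        exact this
      rw [h1, W_sub_comm, sub_eq_add_neg, W_add_eq p, h2]
      rw [W_neg, h2]
      exact hcmW m
    choose sm hsm using fun m => near_exists p hζ hb (hnear m)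
    have hsinj : Function.Injective sm := by
      intro m m' hmm
      by_contra hne
      have h1 : W p (((cm m - cm m' : ℤ)) : A) < 1 := by
        have h2 : (((cm m - cm m' : ℤ)) : A) = (ζ ^ ((sm m' : Fin b) : ℕ) * y (a t) - (cm m' : ℤ)) -
            (ζ ^ ((sm m : Fin b) : ℕ) * y (a t) - (cm m : ℤ)) := by
          rw [hmm]
          push_cast
          ring
        rw [h2]
        exact lt_of_le_of_lt (W_sub_le p _ _) (max_lt (hsm m') (hsm m))
      have h3 : ¬ (p : ℤ) ∣ cm m - cm m' := by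
        have h4 : cm m - cm m' = ((t : ℕ) : ℤ) * (z ^ (m : ℕ) - z ^ (m' : ℕ)) := by
          simp only [cm]
          ring
        rw [h4]
        intro hd
        rcases (Nat.prime_iff_prime_int.1 (Fact.out : p.Prime)).dvd_or_dvd hd with h5 | h5
        · exact htu h5
        · exact order_ne hz m.2 m'.2 (fun h => hne (Fin.ext h)) h5
      rw [W_int_eq p h3] at h1
      exact lt_irrefl _ h1
    have hssurj : Function.Surjective sm := Finite.surjective_of_injective hsinj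
    intro s
    obtain ⟨m, rfl⟩ := hssurj s
    have hg : expand ℤ b f ≠ 0 := by
      rw [Ne, expand_eq_zero (Nat.pos_of_ne_zero hb)]
      exact h.monic.ne_zero
    apply mem_Q_of_unique' p hg ((root_expand hζ hb h hy h0 _).2 ⟨a t, sm m, rfl⟩) (cm m) (hsm m)
    intro y' hy' hy'c
    obtain ⟨l, u, rfl⟩ := (root_expand hζ hb h hy h0 _).1 hy'
    by_cases hl : l = a t
    · subst hl
      by_cases hus : u = sm m
      · rw [hus]
      · rw [near_unique p hζ hpb (hWy _ hk) (hsm m) hus] at hy'c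
        exact absurd hy'c (lt_irrefl _)
    · rw [near_one p hζ hb (W_int_le p _) (hyi l) (hfar m l hl) u] at hy'c
      exact absurd hy'c (lt_irrefl _)
  refine ⟨hinj, h0, a z0, ?_⟩
  intro s t
  set j0 := a z0 with hj0
  have hyj0 : y j0 ≠ 0 := by
    intro h1
    have h2 := hy j0
    rw [h1, zero_pow hb] at h2
    exact h0 j0 h2.symm
  let S : Set A := {x | ∃ j, j ≠ j0 ∧ ∃ u : Fin b, x = ζ ^ (u : ℕ) * y j}
  let R : Finset A := Finset.univ.image (fun s : Fin b => ζ ^ (s : ℕ) * y j0)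
  have hRcard : R.card = b := by
    rw [Finset.card_image_of_injective, Finset.card_univ, Fintype.card_fin]
    intro s t hst
    exact Fin.ext (hζ.pow_inj s.2 t.2 (mul_right_cancel₀ hyj0 hst))
  have hmemR : ∀ s : Fin b, ζ ^ (s : ℕ) * y j0 ∈ R := fun s => Finset.mem_image_of_mem _ (Finset.mem_univ s)
  obtain ⟨σ, hσ1, hσ2⟩ := trans_of_val p (IntermediateField.adjoin ℚ S)
    (by
      rw [IntermediateField.adjoin_le_iff]
      rintro x ⟨j, hj, u, rfl⟩
      exact hQ j hj u)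
    R (by rw [hRcard]; exact hb)
    (by
      intro r hr
      obtain ⟨s, -, rfl⟩ := Finset.mem_image.1 hr
      rw [hRcard, W_mul, W_zeta p hζ hb, one_mul, ← W_pow, hy, hW0])
    (ζ ^ (s : ℕ) * y j0) (hmemR s)
    (by
      intro σ hσ
      have hb' : NeZero b := ⟨hb⟩
      obtain ⟨l, hl⟩ := h.perm σ j0
      have hlj : l = j0 := by
        by_contra hne
        have h1 : σ (θ l) = θ l := by
          have h2 : y l ∈ IntermediateField.adjoin ℚ S := by
            apply IntermediateField.subset_adjoin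
            exact ⟨l, hne, ⟨0, Nat.pos_of_ne_zero hb⟩, by simp⟩
          rw [← hy l, map_pow, hσ _ h2]
        rw [← h1] at hl
        exact hne (hinj (σ.injective hl)).symm
      have h1 : (σ (ζ ^ (s : ℕ) * y j0)) ^ b = θ j0 := by
        rw [← map_pow, mul_pow, ← pow_mul, mul_comm (s : ℕ), pow_mul, hζ.pow_eq_one, one_pow, one_mul, hy, hl, hlj]
      obtain ⟨i, hi, h2⟩ := hζ.eq_pow_of_pow_eq_one (ξ := σ (ζ ^ (s : ℕ) * y j0) / y j0)
        (by rw [div_pow, h1, hy, div_self (h0 j0)])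
      have h3 : σ (ζ ^ (s : ℕ) * y j0) = ζ ^ i * y j0 := by
        rw [h2, div_mul_cancel₀ _ hyj0]
      rw [h3]
      exact hmemR ⟨i, hi⟩)
    (ζ ^ (t : ℕ) * y j0) (hmemR t)
  refine ⟨σ, ?_, hσ2⟩
  intro j hj u
  apply hσ1
  apply IntermediateField.subset_adjoin
  exact ⟨j, hj, u, rfl⟩

end

end Pool.Agent.H450.GW
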